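import Mathlib

set_option autoImplicit false

namespace H45SQ

lemma al_A1 (E n X τ ρ N t Λ v : ℝ) (hΛ : 1 ≤ Λ) (hv : 1 ≤ v) (hn : 1 ≤ n) (hE : 0 < E)
    (hX : 0 < X) (hτ : 0 ≤ τ) (hρ : 0 ≤ ρ) (hN : 0 ≤ N) (ht : 0 ≤ t)
    (h1 : E ≤ 4 * Λ * (X * τ ^ 2)) (h2 : E ≤ 4 * Λ * (X * (v * n)))
    (h3 : X ^ 3 * τ ^ 4 ≤ 2 * Λ * n ^ 3 * ρ * t)
    (h4 : t ^ 4 ≤ 4 * N ^ 2 * Λ ^ 2 * (v * n) * E ^ 2)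
    (h6 : (N * ρ) ^ 2 ≤ 2 * v ^ 2 * (n ^ 2 * X ^ 3)) (h7 : ρ ^ 2 ≤ v * n) :
    E ^ 7 ≤ 2 ^ 28 * Λ ^ 15 * v ^ 5 * n ^ 17 := by
  have hΛ0 : 0 ≤ Λ := by linarith
  have hv0 : 0 ≤ v := by linarith
  have hn0 : 0 ≤ n := by linarith
  have h : E ^ 7 * (E ^ 2 * X ^ 3) ≤ (2 ^ 25 * Λ ^ 15 * v ^ 5 * n ^ 17) * (E ^ 2 * X ^ 3) := by
    calc E ^ 7 * (E ^ 2 * X ^ 3) = E ^ 8 * E * X ^ 3 := by ring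
      _ ≤ (4 * Λ * (X * τ ^ 2)) ^ 8 * (4 * Λ * (X * (v * n))) * X ^ 3 := by gcongr
      _ = 4 ^ 9 * Λ ^ 9 * v * n * (X ^ 3 * τ ^ 4) ^ 4 := by ring
      _ ≤ 4 ^ 9 * Λ ^ 9 * v * n * (2 * Λ * n ^ 3 * ρ * t) ^ 4 := by gcongr
      _ = 4 ^ 9 * Λ ^ 9 * v * n * (16 * Λ ^ 4 * n ^ 12 * ρ ^ 4) * t ^ 4 := by ring
      _ ≤ 4 ^ 9 * Λ ^ 9 * v * n * (16 * Λ ^ 4 * n ^ 12 * ρ ^ 4) *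
          (4 * N ^ 2 * Λ ^ 2 * (v * n) * E ^ 2) := by gcongr
      _ = 2 ^ 24 * Λ ^ 15 * v ^ 2 * n ^ 14 * E ^ 2 * (ρ ^ 2 * (N * ρ) ^ 2) := by ring
      _ ≤ 2 ^ 24 * Λ ^ 15 * v ^ 2 * n ^ 14 * E ^ 2 *
          ((v * n) * (2 * v ^ 2 * (n ^ 2 * X ^ 3))) := by gcongr
      _ = (2 ^ 25 * Λ ^ 15 * v ^ 5 * n ^ 17) * (E ^ 2 * X ^ 3) := by ring
  have h' := le_of_mul_le_mul_right h (by positivity)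
  have : 0 ≤ Λ ^ 15 * v ^ 5 * n ^ 17 := by positivity
  nlinarith

lemma al_A2 (E n X τ ρ N t Λ v : ℝ) (hΛ : 1 ≤ Λ) (hv : 1 ≤ v) (hn : 1 ≤ n) (hE : 0 < E)
    (hX : 0 < X) (hτ : 0 ≤ τ) (hρ : 0 ≤ ρ) (hN : 0 ≤ N) (ht : 0 ≤ t)
    (h1 : E ≤ 4 * Λ * (X * τ ^ 2)) (h2 : E ≤ 4 * Λ * (X * (v * n)))
    (h3 : X ^ 3 * τ ^ 4 ≤ 2 * Λ * n ^ 3 * ρ * t)
    (h4 : t ^ 4 ≤ 4 * N ^ 2 * Λ ^ 2 * (v * n) * E ^ 2)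
    (h7 : N * ρ ^ 2 ≤ X * (v * n ^ 2)) :
    E ^ 7 ≤ 2 ^ 28 * Λ ^ 15 * v ^ 5 * n ^ 17 := by
  have hΛ0 : 0 ≤ Λ := by linarith
  have hv0 : 0 ≤ v := by linarith
  have hn0 : 0 ≤ n := by linarith
  have h : E ^ 8 * (E ^ 2 * X ^ 2) ≤ (2 ^ 26 * Λ ^ 16 * v ^ 5 * n ^ 19) * (E ^ 2 * X ^ 2) := by
    calc E ^ 8 * (E ^ 2 * X ^ 2) = E ^ 8 * E ^ 2 * X ^ 2 := by ring
      _ ≤ (4 * Λ * (X * τ ^ 2)) ^ 8 * (4 * Λ * (X * (v * n))) ^ 2 * X ^ 2 := by gcongr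
      _ = 4 ^ 10 * Λ ^ 10 * v ^ 2 * n ^ 2 * (X ^ 3 * τ ^ 4) ^ 4 := by ring
      _ ≤ 4 ^ 10 * Λ ^ 10 * v ^ 2 * n ^ 2 * (2 * Λ * n ^ 3 * ρ * t) ^ 4 := by gcongr
      _ = 4 ^ 10 * Λ ^ 10 * v ^ 2 * n ^ 2 * (16 * Λ ^ 4 * n ^ 12 * ρ ^ 4) * t ^ 4 := by ring
      _ ≤ 4 ^ 10 * Λ ^ 10 * v ^ 2 * n ^ 2 * (16 * Λ ^ 4 * n ^ 12 * ρ ^ 4) *
          (4 * N ^ 2 * Λ ^ 2 * (v * n) * E ^ 2) := by gcongr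
      _ = 2 ^ 26 * Λ ^ 16 * v ^ 3 * n ^ 15 * E ^ 2 * (N * ρ ^ 2) ^ 2 := by ring
      _ ≤ 2 ^ 26 * Λ ^ 16 * v ^ 3 * n ^ 15 * E ^ 2 * (X * (v * n ^ 2)) ^ 2 := by gcongr
      _ = (2 ^ 26 * Λ ^ 16 * v ^ 5 * n ^ 19) * (E ^ 2 * X ^ 2) := by ring
  have h' := le_of_mul_le_mul_right h (by positivity)
  have h8 : (E ^ 7) ^ 8 ≤ (2 ^ 28 * Λ ^ 15 * v ^ 5 * n ^ 17) ^ 8 := by
    calc (E ^ 7) ^ 8 = (E ^ 8) ^ 7 := by ring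
      _ ≤ (2 ^ 26 * Λ ^ 16 * v ^ 5 * n ^ 19) ^ 7 := by gcongr
      _ = 2 ^ 182 * Λ ^ 112 * v ^ 35 * n ^ 133 := by ring
      _ ≤ 2 ^ 224 * Λ ^ 120 * v ^ 40 * n ^ 136 := by
          gcongr <;> first | assumption | norm_num
      _ = (2 ^ 28 * Λ ^ 15 * v ^ 5 * n ^ 17) ^ 8 := by ring
  exact le_of_pow_le_pow_left₀ (by norm_num) (by positivity) h8

lemma al_B1 (E n X τ ρ N t Λ v : ℝ) (hΛ : 1 ≤ Λ) (hv : 1 ≤ v) (hn : 1 ≤ n) (hE : 0 < E)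
    (hX : 0 < X) (hτ : 0 ≤ τ) (hρ : 0 ≤ ρ) (hN : 0 ≤ N) (ht : 0 ≤ t)
    (h1 : E ≤ 4 * Λ * (X * τ ^ 2)) (h2 : E ≤ 4 * Λ * (X * (v * n)))
    (h3 : X ^ 3 * τ ^ 4 ≤ 2 * Λ * n ^ 3 * ρ * t)
    (h5 : t ^ 5 ≤ 64 * N ^ 3 * Λ ^ 3 * v ^ 3 * n ^ 6)
    (h6 : (N * ρ) ^ 2 ≤ 2 * v ^ 2 * (n ^ 2 * X ^ 3)) (h7 : ρ ^ 2 ≤ v * n) :
    E ^ 7 ≤ 2 ^ 28 * Λ ^ 15 * v ^ 5 * n ^ 17 := by
  have hΛ0 : 0 ≤ Λ := by linarith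
  have hv0 : 0 ≤ v := by linarith
  have hn0 : 0 ≤ n := by linarith
  have h : E ^ 21 * X ^ 9 ≤ (2 ^ 67 * Λ ^ 37 * v ^ 15 * n ^ 51) * X ^ 9 := by
    calc E ^ 21 * X ^ 9 = E ^ 20 * E * X ^ 9 := by ring
      _ ≤ (4 * Λ * (X * τ ^ 2)) ^ 20 * (4 * Λ * (X * (v * n))) * X ^ 9 := by gcongr
      _ = 4 ^ 21 * Λ ^ 21 * v * n * (X ^ 3 * τ ^ 4) ^ 10 := by ring
      _ ≤ 4 ^ 21 * Λ ^ 21 * v * n * (2 * Λ * n ^ 3 * ρ * t) ^ 10 := by gcongr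
      _ = 4 ^ 21 * Λ ^ 21 * v * n * (2 ^ 10 * Λ ^ 10 * n ^ 30 * ρ ^ 10) * (t ^ 5) ^ 2 := by ring
      _ ≤ 4 ^ 21 * Λ ^ 21 * v * n * (2 ^ 10 * Λ ^ 10 * n ^ 30 * ρ ^ 10) *
          (64 * N ^ 3 * Λ ^ 3 * v ^ 3 * n ^ 6) ^ 2 := by gcongr
      _ = 2 ^ 64 * Λ ^ 37 * v ^ 7 * n ^ 43 * ((ρ ^ 2) ^ 2 * ((N * ρ) ^ 2) ^ 3) := by ring
      _ ≤ 2 ^ 64 * Λ ^ 37 * v ^ 7 * n ^ 43 *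
          ((v * n) ^ 2 * (2 * v ^ 2 * (n ^ 2 * X ^ 3)) ^ 3) := by gcongr
      _ = (2 ^ 67 * Λ ^ 37 * v ^ 15 * n ^ 51) * X ^ 9 := by ring
  have h' := le_of_mul_le_mul_right h (by positivity)
  have h8 : (E ^ 7) ^ 3 ≤ (2 ^ 28 * Λ ^ 15 * v ^ 5 * n ^ 17) ^ 3 := by
    calc (E ^ 7) ^ 3 = E ^ 21 := by ring
      _ ≤ 2 ^ 67 * Λ ^ 37 * v ^ 15 * n ^ 51 := h'
      _ ≤ 2 ^ 84 * Λ ^ 45 * v ^ 15 * n ^ 51 := by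
          gcongr <;> first | assumption | norm_num
      _ = (2 ^ 28 * Λ ^ 15 * v ^ 5 * n ^ 17) ^ 3 := by ring
  exact le_of_pow_le_pow_left₀ (by norm_num) (by positivity) h8

lemma al_B2 (E n X τ ρ N t Λ v : ℝ) (hΛ : 1 ≤ Λ) (hv : 1 ≤ v) (hn : 1 ≤ n) (hE : 0 < E)
    (hEn : n ^ 2 ≤ E)
    (hX : 0 < X) (hτ : 0 ≤ τ) (hρ : 0 ≤ ρ) (hN : 0 ≤ N) (ht : 0 ≤ t)
    (h1 : E ≤ 4 * Λ * (X * τ ^ 2)) (h2 : E ≤ 4 * Λ * (X * (v * n)))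
    (h3 : X ^ 3 * τ ^ 4 ≤ 2 * Λ * n ^ 3 * ρ * t)
    (h5 : t ^ 5 ≤ 64 * N ^ 3 * Λ ^ 3 * v ^ 3 * n ^ 6)
    (h6 : (N * ρ) ^ 2 ≤ 2 * v ^ 2 * (n ^ 2 * X ^ 3)) (h7 : N * ρ ^ 2 ≤ X * (v * n ^ 2)) :
    E ^ 7 ≤ 2 ^ 28 * Λ ^ 15 * v ^ 5 * n ^ 17 := by
  have hΛ0 : 0 ≤ Λ := by linarith
  have hv0 : 0 ≤ v := by linarith
  have hn0 : 0 ≤ n := by linarith
  have hn1 : 0 < n := by linarith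
  have h : E ^ 23 * X ^ 7 ≤ (2 ^ 69 * Λ ^ 39 * v ^ 15 * n ^ 55) * X ^ 7 := by
    calc E ^ 23 * X ^ 7 = E ^ 20 * E ^ 3 * X ^ 7 := by ring
      _ ≤ (4 * Λ * (X * τ ^ 2)) ^ 20 * (4 * Λ * (X * (v * n))) ^ 3 * X ^ 7 := by gcongr
      _ = 4 ^ 23 * Λ ^ 23 * v ^ 3 * n ^ 3 * (X ^ 3 * τ ^ 4) ^ 10 := by ring
      _ ≤ 4 ^ 23 * Λ ^ 23 * v ^ 3 * n ^ 3 * (2 * Λ * n ^ 3 * ρ * t) ^ 10 := by gcongr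
      _ = 4 ^ 23 * Λ ^ 23 * v ^ 3 * n ^ 3 * (2 ^ 10 * Λ ^ 10 * n ^ 30 * ρ ^ 10) *
          (t ^ 5) ^ 2 := by ring
      _ ≤ 4 ^ 23 * Λ ^ 23 * v ^ 3 * n ^ 3 * (2 ^ 10 * Λ ^ 10 * n ^ 30 * ρ ^ 10) *
          (64 * N ^ 3 * Λ ^ 3 * v ^ 3 * n ^ 6) ^ 2 := by gcongr
      _ = 2 ^ 68 * Λ ^ 39 * v ^ 9 * n ^ 45 * ((N * ρ) ^ 2 * (N * ρ ^ 2) ^ 4) := by ring
      _ ≤ 2 ^ 68 * Λ ^ 39 * v ^ 9 * n ^ 45 *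
          ((2 * v ^ 2 * (n ^ 2 * X ^ 3)) * (X * (v * n ^ 2)) ^ 4) := by gcongr
      _ = (2 ^ 69 * Λ ^ 39 * v ^ 15 * n ^ 55) * X ^ 7 := by ring
  have h' := le_of_mul_le_mul_right h (by positivity)
  have h9 : E ^ 21 * n ^ 4 ≤ (2 ^ 69 * Λ ^ 39 * v ^ 15 * n ^ 51) * n ^ 4 := by
    calc E ^ 21 * n ^ 4 = E ^ 21 * (n ^ 2) ^ 2 := by ring
      _ ≤ E ^ 21 * E ^ 2 := by gcongr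
      _ = E ^ 23 := by ring
      _ ≤ 2 ^ 69 * Λ ^ 39 * v ^ 15 * n ^ 55 := h'
      _ = (2 ^ 69 * Λ ^ 39 * v ^ 15 * n ^ 51) * n ^ 4 := by ring
  have h10 := le_of_mul_le_mul_right h9 (by positivity)
  have h8 : (E ^ 7) ^ 3 ≤ (2 ^ 28 * Λ ^ 15 * v ^ 5 * n ^ 17) ^ 3 := by
    calc (E ^ 7) ^ 3 = E ^ 21 := by ring
      _ ≤ 2 ^ 69 * Λ ^ 39 * v ^ 15 * n ^ 51 := h10
      _ ≤ 2 ^ 84 * Λ ^ 45 * v ^ 15 * n ^ 51 := by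
          gcongr <;> first | assumption | norm_num
      _ = (2 ^ 28 * Λ ^ 15 * v ^ 5 * n ^ 17) ^ 3 := by ring
  exact le_of_pow_le_pow_left₀ (by norm_num) (by positivity) h8

/-- The final computation. -/
theorem al (E n X τ ρ Y N t σ Z S Λ v : ℝ) (hΛ : 1 ≤ Λ) (hv : 1 ≤ v) (hn : 1 ≤ n)
    (hEn : n ^ 2 ≤ E) (hX : 0 ≤ X) (hτ : 0 ≤ τ) (hρ : 0 ≤ ρ) (hN : 0 ≤ N) (ht : 0 ≤ t)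
    (hσ : 0 ≤ σ) (hZ : 0 ≤ Z) (hS : 0 ≤ S)
    (h1 : E ≤ 4 * Λ * (X * τ ^ 2)) (h2 : τ ^ 2 ≤ v * n)
    (h3 : X ^ 3 * τ ^ 4 ≤ 2 * Λ * n ^ 3 * ρ * t)
    (h4 : t ^ 2 ≤ N * (Λ * S))
    (h5 : (σ ^ 2 ≤ v * n ∧ S ≤ 2 * σ * E) ∨
      (σ ^ 2 * Z ≤ v * n ^ 2 ∧ S ≤ 8 * σ ^ 3 * Z ∧ S ≤ t * Z))
    (h6 : (N * ρ) ^ 2 ≤ 2 * v ^ 2 * (n ^ 2 * X ^ 3))
    (h7 : ρ ^ 2 ≤ v * n ∨ (ρ ^ 2 * Y ≤ v * n ^ 2 ∧ N ≤ X * Y)) :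
    E ^ 7 ≤ 2 ^ 28 * Λ ^ 15 * v ^ 5 * n ^ 17 := by
  have hΛ0 : 0 ≤ Λ := by linarith
  have hv0 : 0 ≤ v := by linarith
  have hn0 : 0 ≤ n := by linarith
  have hE : 0 < E := lt_of_lt_of_le (by positivity) hEn
  have hX' : 0 < X := by
    rcases hX.eq_or_lt with h | h
    · rw [← h] at h1
      simp at h1
      linarith
    · exact h
  have h2' : E ≤ 4 * Λ * (X * (v * n)) := by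
    refine h1.trans ?_
    gcongr
  have h7' : ρ ^ 2 ≤ v * n ∨ N * ρ ^ 2 ≤ X * (v * n ^ 2) := by
    rcases h7 with h | ⟨ha, hb⟩
    · exact Or.inl h
    · right
      calc N * ρ ^ 2 ≤ X * Y * ρ ^ 2 := by gcongr
        _ = X * (ρ ^ 2 * Y) := by ring
        _ ≤ X * (v * n ^ 2) := by gcongr
  rcases h5 with ⟨ha, hb⟩ | ⟨ha, hb, hc⟩
  · have h4' : t ^ 4 ≤ 4 * N ^ 2 * Λ ^ 2 * (v * n) * E ^ 2 := by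
      calc t ^ 4 = (t ^ 2) ^ 2 := by ring
        _ ≤ (N * (Λ * S)) ^ 2 := by gcongr
        _ ≤ (N * (Λ * (2 * σ * E))) ^ 2 := by gcongr
        _ = 4 * N ^ 2 * Λ ^ 2 * σ ^ 2 * E ^ 2 := by ring
        _ ≤ 4 * N ^ 2 * Λ ^ 2 * (v * n) * E ^ 2 := by gcongr
    rcases h7' with h | h
    · exact al_A1 E n X τ ρ N t Λ v hΛ hv hn hE hX' hτ hρ hN ht h1 h2' h3 h4' h6 h
    · exact al_A2 E n X τ ρ N t Λ v hΛ hv hn hE hX' hτ hρ hN ht h1 h2' h3 h4' h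
  · have h5' : t ^ 5 ≤ 64 * N ^ 3 * Λ ^ 3 * v ^ 3 * n ^ 6 := by
      rcases ht.eq_or_lt with h | h
      · rw [← h]
        have : 0 ≤ 64 * N ^ 3 * Λ ^ 3 * v ^ 3 * n ^ 6 := by positivity
        simpa using this
      · have hs3 : S ^ 3 ≤ 64 * (v * n ^ 2) ^ 3 * t := by
          calc S ^ 3 = S ^ 2 * S := by ring
            _ ≤ (8 * σ ^ 3 * Z) ^ 2 * (t * Z) := by gcongr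
            _ = 64 * (σ ^ 2 * Z) ^ 3 * t := by ring
            _ ≤ 64 * (v * n ^ 2) ^ 3 * t := by gcongr
        have h9 : t ^ 5 * t ≤ (64 * N ^ 3 * Λ ^ 3 * v ^ 3 * n ^ 6) * t := by
          calc t ^ 5 * t = (t ^ 2) ^ 3 := by ring
            _ ≤ (N * (Λ * S)) ^ 3 := by gcongr
            _ = N ^ 3 * Λ ^ 3 * S ^ 3 := by ring
            _ ≤ N ^ 3 * Λ ^ 3 * (64 * (v * n ^ 2) ^ 3 * t) := by gcongr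
            _ = (64 * N ^ 3 * Λ ^ 3 * v ^ 3 * n ^ 6) * t := by ring
        exact le_of_mul_le_mul_right h9 h
    rcases h7' with h | h
    · exact al_B1 E n X τ ρ N t Λ v hΛ hv hn hE hX' hτ hρ hN ht h1 h2' h3 h5' h6 h
    · exact al_B2 E n X τ ρ N t Λ v hΛ hv hn hE hEn hX' hτ hρ hN ht h1 h2' h3 h5' h6 h

end H45SQ
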