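import Pool.Agent.H45.SQ.In

set_option autoImplicit false

namespace H45SQ

open Finset H91SQ

/-- The third moment. -/
theorem third (H : ℕ) (hH : 2 ≤ H) (A : Finset ℤ)
    (hA : ∀ a ∈ A, ∃ x : ℤ, |x| ≤ (H : ℤ) ∧ a = x ^ 2) :
    ∑ s ∈ dif A, (rep A s : ℝ) ^ 3 ≤ 8 * (LL A : ℝ) * vv H * (A.card : ℝ) ^ 3 := by
  have hv1 := vv_one H hH
  have hv0 : 0 ≤ vv H := by linarith
  have hn0 : (0 : ℝ) ≤ (A.card : ℝ) := Nat.cast_nonneg _
  rw [sum_lv]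
  have key : ∀ i ∈ Finset.range (LL A), ∑ s ∈ Dl A i, (rep A s : ℝ) ^ 3 ≤
      8 * vv H * (A.card : ℝ) ^ 3 := by
    intro i _
    obtain ⟨σ, hσ⟩ : ∃ σ : ℝ, σ = 2 ^ i := ⟨_, rfl⟩
    have hσ0 : 0 ≤ σ := by rw [hσ]; positivity
    have hilt : ∀ s ∈ Dl A i, (rep A s : ℝ) ≤ 2 * σ := by
      intro s hs
      have h := (rep_lt hs).le
      have h' : (rep A s : ℝ) ≤ 2 ^ (i + 1) := by exact_mod_cast h
      rw [hσ, ← pow_succ']
      exact h'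
    have hige : ∀ s ∈ Dl A i, σ ≤ (rep A s : ℝ) := by
      intro s hs
      rw [hσ]; exact_mod_cast rep_ge hs
    rcases lev_bound H hH A hA (Dl A i) (Dl_sub A i) σ hσ0 hige with h | h
    · have ha : ∑ s ∈ Dl A i, (rep A s : ℝ) ^ 3 ≤ ∑ s ∈ Dl A i, 4 * σ ^ 2 * (rep A s : ℝ) := by
        refine Finset.sum_le_sum fun s hs => ?_
        have hb := pow_le_pow_left₀ (Nat.cast_nonneg (rep A s)) (hilt s hs) 2
        have hc : (0 : ℝ) ≤ (rep A s : ℝ) := Nat.cast_nonneg _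
        calc (rep A s : ℝ) ^ 3 = (rep A s : ℝ) ^ 2 * (rep A s : ℝ) := by ring
          _ ≤ (2 * σ) ^ 2 * (rep A s : ℝ) := mul_le_mul_of_nonneg_right hb hc
          _ = 4 * σ ^ 2 * (rep A s : ℝ) := by ring
      rw [← Finset.mul_sum] at ha
      have hb : ∑ s ∈ Dl A i, (rep A s : ℝ) ≤ (A.card : ℝ) ^ 2 := by
        have h1 : ∑ s ∈ Dl A i, (rep A s : ℝ) ≤ ∑ s ∈ dif A, (rep A s : ℝ) :=
          Finset.sum_le_sum_of_subset_of_nonneg (Dl_sub A i) (fun _ _ _ => Nat.cast_nonneg _)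
        refine h1.trans (le_of_eq ?_)
        exact_mod_cast sum_rep A
      calc ∑ s ∈ Dl A i, (rep A s : ℝ) ^ 3 ≤ 4 * σ ^ 2 * ∑ s ∈ Dl A i, (rep A s : ℝ) := ha
        _ ≤ 4 * (vv H * (A.card : ℝ)) * (A.card : ℝ) ^ 2 := by gcongr
        _ ≤ 8 * vv H * (A.card : ℝ) ^ 3 := by
            have : 0 ≤ vv H * (A.card : ℝ) ^ 3 := by positivity
            nlinarith
    · rcases (Dl A i).eq_empty_or_nonempty with h0 | ⟨s0, hs0⟩
      · rw [h0, Finset.sum_empty]; positivity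
      · have hσn : σ ≤ (A.card : ℝ) := by
          refine (hige s0 hs0).trans ?_
          exact_mod_cast rep_le A s0
        have ha : ∑ s ∈ Dl A i, (rep A s : ℝ) ^ 3 ≤ ∑ _s ∈ Dl A i, 8 * σ ^ 3 := by
          refine Finset.sum_le_sum fun s hs => ?_
          have hb := pow_le_pow_left₀ (Nat.cast_nonneg (rep A s)) (hilt s hs) 3
          calc (rep A s : ℝ) ^ 3 ≤ (2 * σ) ^ 3 := hb
            _ = 8 * σ ^ 3 := by ring
        rw [Finset.sum_const, nsmul_eq_mul] at ha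
        calc ∑ s ∈ Dl A i, (rep A s : ℝ) ^ 3 ≤ ((Dl A i).card : ℝ) * (8 * σ ^ 3) := ha
          _ = 8 * σ * (σ ^ 2 * ((Dl A i).card : ℝ)) := by ring
          _ ≤ 8 * (A.card : ℝ) * (vv H * (A.card : ℝ) ^ 2) := by gcongr
          _ = 8 * vv H * (A.card : ℝ) ^ 3 := by ring
  refine (Finset.sum_le_sum key).trans (le_of_eq ?_)
  rw [Finset.sum_const, Finset.card_range, nsmul_eq_mul]
  ring

/-- The elements `a` of `A` with `a + s` in `A`. -/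
def As (A : Finset ℤ) (s : ℤ) : Finset ℤ := A.filter (fun b => b + s ∈ A)

/-- Size of `A - A_s`. -/
def Ks (A : Finset ℤ) (s : ℤ) : ℕ := ((A ×ˢ As A s).image (fun z : ℤ × ℤ => z.1 - z.2)).card

lemma sum_col_As (A : Finset ℤ) :
    ∑ s ∈ dif A, col (A ×ˢ As A s) (fun z : ℤ × ℤ => z.1 - z.2) ≤ ∑ u ∈ dif A, rep A u ^ 3 := by
  unfold col
  rw [← Finset.card_sigma]
  have e : ∀ u ∈ dif A, rep A u ^ 3 =
      (((A ×ˢ A).filter (fun p : ℤ × ℤ => p.1 - p.2 = u)) ×ˢ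
        ((A ×ˢ A).filter (fun p : ℤ × ℤ => p.1 - p.2 = u)) ×ˢ
        ((A ×ˢ A).filter (fun p : ℤ × ℤ => p.1 - p.2 = u))).card := by
    intro u _
    rw [Finset.card_product, Finset.card_product]
    unfold rep
    ring
  rw [Finset.sum_congr rfl e, ← Finset.card_sigma]
  refine Finset.card_le_card_of_injOn
    (fun p => ⟨p.2.1.1 - p.2.2.1, ((p.2.1.1, p.2.2.1), (p.2.1.2, p.2.2.2),
      (p.2.1.2 + p.1, p.2.2.2 + p.1))⟩) ?_ ?_
  · intro p hp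
    have hp' := Finset.mem_sigma.mp (Finset.mem_coe.mp hp)
    have h1 := Finset.mem_filter.mp hp'.2
    have h2 := Finset.mem_product.mp h1.1
    have h3 := Finset.mem_product.mp h2.1
    have h4 := Finset.mem_product.mp h2.2
    have h5 := Finset.mem_filter.mp h3.2
    have h6 := Finset.mem_filter.mp h4.2
    have h7 : p.2.1.1 - p.2.1.2 = p.2.2.1 - p.2.2.2 := h1.2
    refine Finset.mem_coe.mpr (Finset.mem_sigma.mpr ⟨?_, ?_⟩)
    · exact Finset.mem_image.mpr ⟨(p.2.1.1, p.2.2.1), Finset.mem_product.mpr ⟨h3.1, h4.1⟩, rfl⟩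
    · refine Finset.mem_product.mpr ⟨?_, Finset.mem_product.mpr ⟨?_, ?_⟩⟩
      · exact Finset.mem_filter.mpr ⟨Finset.mem_product.mpr ⟨h3.1, h4.1⟩, rfl⟩
      · refine Finset.mem_filter.mpr ⟨Finset.mem_product.mpr ⟨h5.1, h6.1⟩, ?_⟩
        show p.2.1.2 - p.2.2.2 = p.2.1.1 - p.2.2.1
        linarith
      · refine Finset.mem_filter.mpr ⟨Finset.mem_product.mpr ⟨h5.2, h6.2⟩, ?_⟩
        show p.2.1.2 + p.1 - (p.2.2.2 + p.1) = p.2.1.1 - p.2.2.1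
        linarith
  · rintro ⟨s, ⟨⟨a, b⟩, ⟨c, e⟩⟩⟩ _ ⟨s', ⟨⟨a', b'⟩, ⟨c', e'⟩⟩⟩ _ h
    simp only [Sigma.mk.injEq, heq_eq_eq, Prod.mk.injEq] at h
    obtain ⟨_, ⟨h1, h2⟩, ⟨h3, h4⟩, h5, _⟩ := h
    subst h1 h2 h3 h4
    have h6 : s = s' := by linarith
    subst h6
    rfl

lemma Ks_bound (A : Finset ℤ) (s : ℤ) :
    (A.card * rep A s) ^ 2 ≤ Ks A s * col (A ×ˢ As A s) (fun z : ℤ × ℤ => z.1 - z.2) := by
  have h := card_sq_le (A ×ˢ As A s) (fun z : ℤ × ℤ => z.1 - z.2)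
  rw [Finset.card_product] at h
  have e : (As A s).card = rep A s := by rw [rep_eq]; rfl
  rw [e] at h
  exact h

/-- Katz-Koester. -/
lemma sum_Ks (A : Finset ℤ) :
    ∑ s ∈ dif A, rep A s * Ks A s ≤ col (A ×ˢ dif A) (fun z : ℤ × ℤ => z.1 + z.2) := by
  have h1 : ∀ s ∈ dif A, rep A s * Ks A s =
      (((A ×ˢ A).filter (fun p : ℤ × ℤ => p.1 - p.2 = s)) ×ˢ
        ((A ×ˢ As A s).image (fun z : ℤ × ℤ => z.1 - z.2))).card := by
    intro s _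
    rw [Finset.card_product]
    rfl
  rw [Finset.sum_congr rfl h1, ← Finset.card_sigma]
  unfold col
  refine Finset.card_le_card_of_injOn
    (fun p => ((p.2.1.2, p.2.2), (p.2.1.1, p.2.2 - p.1))) ?_ ?_
  · intro p hp
    have hp' := Finset.mem_sigma.mp (Finset.mem_coe.mp hp)
    have h2 := Finset.mem_product.mp hp'.2
    have h3 := Finset.mem_filter.mp h2.1
    have h4 := Finset.mem_product.mp h3.1
    obtain ⟨z, hz, hz'⟩ := Finset.mem_image.mp h2.2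
    have h5 := Finset.mem_product.mp hz
    have h6 := Finset.mem_filter.mp h5.2
    have h7 : z.1 - z.2 = p.2.2 := hz'
    have h8 : p.2.1.1 - p.2.1.2 = p.1 := h3.2
    refine Finset.mem_coe.mpr (Finset.mem_filter.mpr ⟨Finset.mem_product.mpr
      ⟨Finset.mem_product.mpr ⟨h4.2, ?_⟩, Finset.mem_product.mpr ⟨h4.1, ?_⟩⟩, ?_⟩)
    · exact Finset.mem_image.mpr ⟨(z.1, z.2), Finset.mem_product.mpr ⟨h5.1, h6.1⟩, h7⟩
    · refine Finset.mem_image.mpr ⟨(z.1, z.2 + p.1), Finset.mem_product.mpr ⟨h5.1, h6.2⟩, ?_⟩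
      show z.1 - (z.2 + p.1) = p.2.2 - p.1
      linarith
    · show p.2.1.2 + p.2.2 = p.2.1.1 + (p.2.2 - p.1)
      linarith
  · rintro ⟨s, ⟨⟨a, b⟩, x⟩⟩ _ ⟨s', ⟨⟨a', b'⟩, x'⟩⟩ _ h
    simp only [Prod.mk.injEq] at h
    obtain ⟨⟨h1, h2⟩, h3, h4⟩ := h
    subst h1 h2 h3
    have h6 : s = s' := by linarith
    subst h6
    rfl

lemma Ks_pos {A : Finset ℤ} {s : ℤ} (hs : s ∈ dif A) : 0 < Ks A s := by
  obtain ⟨p, hp, h⟩ := Finset.mem_image.mp hs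
  have h1 := Finset.mem_product.mp hp
  have h' : p.1 - p.2 = s := h
  refine Finset.card_pos.mpr ⟨p.1 - p.2, Finset.mem_image.mpr ⟨(p.1, p.2), ?_, rfl⟩⟩
  refine Finset.mem_product.mpr ⟨h1.1, Finset.mem_filter.mpr ⟨h1.2, ?_⟩⟩
  show p.2 + s ∈ A
  rw [← h']
  have : p.2 + (p.1 - p.2) = p.1 := by ring
  rw [this]; exact h1.1

lemma amgm33 (x y z : ℝ) (hx : 0 ≤ x) (hy : 0 ≤ y) (hz : 0 ≤ z) :
    27 * (x * y * z) ≤ (x + y + z) ^ 3 := by
  nlinarith [mul_nonneg hx (sq_nonneg (y - z)), mul_nonneg hy (sq_nonneg (x - z)),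
    mul_nonneg hz (sq_nonneg (x - y)), mul_nonneg (add_nonneg (add_nonneg hx hy) hz)
      (add_nonneg (add_nonneg (sq_nonneg (x - y)) (sq_nonneg (y - z))) (sq_nonneg (x - z)))]

/-- Hölder's inequality for three functions. -/
lemma holder3 {ι : Type*} (s : Finset ι) (r f g : ι → ℝ) (hr : ∀ i ∈ s, 0 ≤ r i)
    (hf : ∀ i ∈ s, 0 ≤ f i) (hg : ∀ i ∈ s, 0 ≤ g i) (h : ∀ i ∈ s, r i ^ 3 ≤ f i * g i) :
    (∑ i ∈ s, r i) ^ 3 ≤ (∑ i ∈ s, f i) * (∑ i ∈ s, g i) * (s.card : ℝ) := by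
  obtain ⟨F, hF⟩ : ∃ F : ℝ, F = ∑ i ∈ s, f i := ⟨_, rfl⟩
  obtain ⟨G, hG⟩ : ∃ G : ℝ, G = ∑ i ∈ s, g i := ⟨_, rfl⟩
  obtain ⟨N, hN⟩ : ∃ N : ℝ, N = (s.card : ℝ) := ⟨_, rfl⟩
  have hF0 : 0 ≤ F := by rw [hF]; exact Finset.sum_nonneg hf
  have hG0 : 0 ≤ G := by rw [hG]; exact Finset.sum_nonneg hg
  have hN0 : 0 ≤ N := by rw [hN]; exact Nat.cast_nonneg _
  rw [← hF, ← hG, ← hN]
  by_cases h0 : F * G * N = 0
  · have hz : ∀ i ∈ s, r i = 0 := by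
      intro i hi
      have hNpos : N ≠ 0 := by
        rw [hN]
        have : 0 < s.card := Finset.card_pos.mpr ⟨i, hi⟩
        positivity
      have hFG : F * G = 0 := by
        rcases mul_eq_zero.mp h0 with h1 | h1
        · exact h1
        · exact absurd h1 hNpos
      have h3 : r i ^ 3 ≤ 0 := by
        refine (h i hi).trans ?_
        have h4 : f i ≤ F := by rw [hF]; exact Finset.single_le_sum hf hi
        have h5 : g i ≤ G := by rw [hG]; exact Finset.single_le_sum hg hi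
        calc f i * g i ≤ F * G := mul_le_mul h4 h5 (hg i hi) hF0
          _ = 0 := hFG
      have h6 : r i ^ 3 = 0 := le_antisymm h3 (pow_nonneg (hr i hi) 3)
      exact pow_eq_zero_iff (by norm_num) |>.mp h6
    rw [Finset.sum_eq_zero hz, h0]
    norm_num
  · have hpos : 0 < F * G * N := lt_of_le_of_ne (by positivity) (Ne.symm h0)
    have hFp : 0 < F := by
      rcases hF0.eq_or_lt with h1 | h1
      · rw [← h1] at hpos; simp at hpos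
      · exact h1
    have hGp : 0 < G := by
      rcases hG0.eq_or_lt with h1 | h1
      · rw [← h1] at hpos; simp at hpos
      · exact h1
    have hNp : 0 < N := by
      rcases hN0.eq_or_lt with h1 | h1
      · rw [← h1] at hpos; simp at hpos
      · exact h1
    obtain ⟨c, hc0, hc⟩ : ∃ c : ℝ, 0 < c ∧ c ^ 3 = F * G * N := by
      refine ⟨(F * G * N) ^ ((1 : ℝ) / 3), Real.rpow_pos_of_pos hpos _, ?_⟩
      rw [← Real.rpow_natCast, ← Real.rpow_mul hpos.le]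
      norm_num
    have key : ∀ i ∈ s, 3 * (r i / c) ≤ f i / F + g i / G + 1 / N := by
      intro i hi
      have h1 := amgm33 (f i / F) (g i / G) (1 / N) (div_nonneg (hf i hi) hF0)
        (div_nonneg (hg i hi) hG0) (by positivity)
      have h2 : (3 * (r i / c)) ^ 3 ≤ (f i / F + g i / G + 1 / N) ^ 3 := by
        refine le_trans ?_ h1
        have e1 : (3 * (r i / c)) ^ 3 = 27 * (r i ^ 3 / c ^ 3) := by ring
        have e2 : 27 * (f i / F * (g i / G) * (1 / N)) = 27 * ((f i * g i) / (F * G * N)) := by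
          field_simp
        rw [e1, e2, hc]
        apply mul_le_mul_of_nonneg_left _ (by norm_num)
        exact div_le_div_of_nonneg_right (h i hi) hpos.le
      have h3 : 0 ≤ f i / F + g i / G + 1 / N := by
        have := div_nonneg (hf i hi) hF0
        have := div_nonneg (hg i hi) hG0
        positivity
      exact le_of_pow_le_pow_left₀ (by norm_num) h3 h2
    have hsum := Finset.sum_le_sum key
    rw [Finset.sum_add_distrib, Finset.sum_add_distrib, ← Finset.sum_div, ← Finset.sum_div,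
      Finset.sum_const, nsmul_eq_mul, ← Finset.mul_sum, ← Finset.sum_div, ← hF, ← hG, ← hN,
      div_self hFp.ne', div_self hGp.ne', mul_one_div, div_self hNp.ne'] at hsum
    have h5 : (∑ i ∈ s, r i) / c ≤ 1 := by linarith
    rw [div_le_one hc0] at h5
    rw [← hc]
    exact pow_le_pow_left₀ (Finset.sum_nonneg hr) h5 3

/-- The size of the difference set. -/
theorem dif_bound (H : ℕ) (hH : 2 ≤ H) (A : Finset ℤ)
    (hA : ∀ a ∈ A, ∃ x : ℤ, |x| ≤ (H : ℤ) ∧ a = x ^ 2) :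
    (A.card : ℝ) ^ 8 ≤ 128 * (LL A : ℝ) ^ 2 * vv H ^ 4 * ((dif A).card : ℝ) ^ 5 := by
  have hv1 := vv_one H hH
  have hv0 : 0 ≤ vv H := by linarith
  by_cases hA0 : A.card = 0
  · rw [hA0]
    push_cast
    have : 0 ≤ 128 * (LL A : ℝ) ^ 2 * vv H ^ 4 * ((dif A).card : ℝ) ^ 5 := by positivity
    simpa using this
  have hn1 : (1 : ℝ) ≤ (A.card : ℝ) := by exact_mod_cast Nat.one_le_iff_ne_zero.mpr hA0
  obtain ⟨n, hn⟩ : ∃ n : ℝ, n = (A.card : ℝ) := ⟨_, rfl⟩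
  obtain ⟨v, hv⟩ : ∃ v : ℝ, v = vv H := ⟨_, rfl⟩
  obtain ⟨Λ, hΛ⟩ : ∃ Λ : ℝ, Λ = (LL A : ℝ) := ⟨_, rfl⟩
  obtain ⟨X, hX⟩ : ∃ X : ℝ, X = ((dif A).card : ℝ) := ⟨_, rfl⟩
  obtain ⟨T, hT⟩ : ∃ T : ℝ, T = ∑ s ∈ dif A, (rep A s : ℝ) ^ 3 := ⟨_, rfl⟩
  obtain ⟨Q, hQ⟩ : ∃ Q : ℝ, Q = (col (A ×ˢ dif A) (fun z : ℤ × ℤ => z.1 + z.2) : ℝ) := ⟨_, rfl⟩
  have h3 := third H hH A hA
  have h6 := mix_bound H hH A hA (dif A) (Finset.Subset.refl _)
  rw [← hT, ← hΛ, ← hv, ← hn] at h3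
  rw [← hQ, ← hv, ← hn, ← hX] at h6
  rw [← hn] at hn1
  rw [← hv] at hv1 hv0
  rw [← hn, ← hv, ← hΛ, ← hX]
  have hn0 : 0 < n := by linarith
  have hX0 : 0 ≤ X := by rw [hX]; exact Nat.cast_nonneg _
  have hQ0 : 0 ≤ Q := by rw [hQ]; exact Nat.cast_nonneg _
  have hΛ0 : 0 ≤ Λ := by rw [hΛ]; exact Nat.cast_nonneg _
  have hT0 : 0 ≤ T := by rw [hT]; exact Finset.sum_nonneg fun _ _ => by positivity
  -- Hölder
  obtain ⟨cc, hcc⟩ : ∃ cc : ℤ → ℝ, cc = fun s =>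
    (col (A ×ˢ As A s) (fun z : ℤ × ℤ => z.1 - z.2) : ℝ) := ⟨_, rfl⟩
  have hcc0 : ∀ s, 0 ≤ cc s := by intro s; rw [hcc]; exact Nat.cast_nonneg _
  have hh := holder3 (dif A) (fun s => n ^ ((2 : ℝ) / 3) * (rep A s : ℝ)) cc
    (fun s => (rep A s : ℝ) * (Ks A s : ℝ))
    (fun s _ => by positivity) (fun s _ => hcc0 s) (fun s _ => by positivity)
    (by
      intro s hs
      have hk : (0 : ℝ) < (Ks A s : ℝ) := by exact_mod_cast Ks_pos hs
      have h1 : (n * (rep A s : ℝ)) ^ 2 ≤ (Ks A s : ℝ) * cc s := by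
        rw [hn, hcc]
        show ((A.card : ℝ) * (rep A s : ℝ)) ^ 2 ≤
          (Ks A s : ℝ) * (col (A ×ˢ As A s) (fun z : ℤ × ℤ => z.1 - z.2) : ℝ)
        exact_mod_cast Ks_bound A s
      have e1 : (n ^ ((2 : ℝ) / 3)) ^ 3 = n ^ 2 := by
        rw [← Real.rpow_natCast, ← Real.rpow_mul hn0.le, ← Real.rpow_natCast]
        norm_num
      have hr0 : (0 : ℝ) ≤ (rep A s : ℝ) := Nat.cast_nonneg _
      calc (n ^ ((2 : ℝ) / 3) * (rep A s : ℝ)) ^ 3 = n ^ 2 * (rep A s : ℝ) ^ 3 := by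
            rw [mul_pow, e1]
        _ = (rep A s : ℝ) * (n * (rep A s : ℝ)) ^ 2 := by ring
        _ ≤ (rep A s : ℝ) * ((Ks A s : ℝ) * cc s) := mul_le_mul_of_nonneg_left h1 hr0
        _ = cc s * ((rep A s : ℝ) * (Ks A s : ℝ)) := by ring)
  have e2 : ∑ s ∈ dif A, n ^ ((2 : ℝ) / 3) * (rep A s : ℝ) = n ^ ((2 : ℝ) / 3) * n ^ 2 := by
    rw [← Finset.mul_sum, hn]
    congr 1
    exact_mod_cast sum_rep A
  have e3 : (n ^ ((2 : ℝ) / 3)) ^ 3 = n ^ 2 := by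
    rw [← Real.rpow_natCast, ← Real.rpow_mul hn0.le, ← Real.rpow_natCast]
    norm_num
  have h7 : ∑ s ∈ dif A, cc s ≤ T := by
    rw [hcc, hT]
    show ∑ s ∈ dif A, (col (A ×ˢ As A s) (fun z : ℤ × ℤ => z.1 - z.2) : ℝ) ≤
      ∑ s ∈ dif A, (rep A s : ℝ) ^ 3
    exact_mod_cast sum_col_As A
  have h8 : ∑ s ∈ dif A, (rep A s : ℝ) * (Ks A s : ℝ) ≤ Q := by
    rw [hQ]
    exact_mod_cast sum_Ks A
  have h9 : n ^ 8 ≤ T * Q * X := by
    calc n ^ 8 = (n ^ ((2 : ℝ) / 3) * n ^ 2) ^ 3 := by rw [mul_pow, e3]; ring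
      _ ≤ (∑ s ∈ dif A, cc s) * (∑ s ∈ dif A, (rep A s : ℝ) * (Ks A s : ℝ)) *
          ((dif A).card : ℝ) := by rw [← e2]; exact hh
      _ ≤ T * Q * X := by
          rw [← hX]
          apply mul_le_mul_of_nonneg_right _ hX0
          apply mul_le_mul h7 h8 _ hT0
          exact Finset.sum_nonneg fun s _ => by positivity
  have h10 : n ^ 8 * n ^ 8 ≤ (128 * Λ ^ 2 * v ^ 4 * X ^ 5) * n ^ 8 := by
    calc n ^ 8 * n ^ 8 = (n ^ 8) ^ 2 := by ring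
      _ ≤ (T * Q * X) ^ 2 := by gcongr
      _ = T ^ 2 * Q ^ 2 * X ^ 2 := by ring
      _ ≤ (8 * Λ * v * n ^ 3) ^ 2 * (2 * v ^ 2 * (n ^ 2 * X ^ 3)) * X ^ 2 := by gcongr
      _ = (128 * Λ ^ 2 * v ^ 4 * X ^ 5) * n ^ 8 := by ring
  exact le_of_mul_le_mul_right h10 (by positivity)

end H45SQ
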