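import Pool.Agent.H45.SQ.Tup

set_option autoImplicit false

namespace H45SQ

open Finset

/-- The bound for integer squares. -/
theorem ten_bound_int (H : ℕ) (hH : 2 ≤ H) (A : Finset ℤ)
    (hA : ∀ a ∈ A, ∃ x : ℤ, |x| ≤ (H : ℤ) ∧ a = x ^ 2) (k : ℕ) :
    (ten (k + 1) A : ℝ) ≤ (20000 * Real.log (((k : ℝ) + 1) * H)) ^ (2 - 2 * (1 / 2 : ℝ) ^ k) *
      (A.card : ℝ) ^ (2 * (k : ℝ) + (1 / 2 : ℝ) ^ k) := by
  have hHr : (2 : ℝ) ≤ H := by exact_mod_cast hH
  by_cases hA0 : A.card = 0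
  · have h1 := ten_le k A
    rw [hA0] at h1
    have h2 : ten (k + 1) A = 0 := by simpa using h1
    rw [h2]
    push_cast
    have : 0 ≤ Real.log (((k : ℝ) + 1) * H) := by
      apply Real.log_nonneg
      have : (0 : ℝ) ≤ k := Nat.cast_nonneg _
      nlinarith
    positivity
  have hn1 : (1 : ℝ) ≤ (A.card : ℝ) := by exact_mod_cast Nat.one_le_iff_ne_zero.mpr hA0
  induction k with
  | zero =>
    have h1 := ten_le 0 A
    have h2 : ((ten (0 + 1) A : ℕ) : ℝ) ≤ (A.card : ℝ) := by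
      have : ten (0 + 1) A ≤ A.card := by simpa using h1
      exact_mod_cast this
    refine h2.trans (le_of_eq ?_)
    norm_num
  | succ j ih =>
    have hj0 : (0 : ℝ) ≤ j := Nat.cast_nonneg _
    have hθ0 : (0 : ℝ) ≤ (1 / 2 : ℝ) ^ j := by positivity
    have hθ1 : (1 / 2 : ℝ) ^ j ≤ 1 := pow_le_one₀ (by norm_num) (by norm_num)
    have hlog2 : (0.69 : ℝ) ≤ Real.log 2 := by
      have := Real.log_two_gt_d9
      linarith
    have hl1 : Real.log 2 ≤ Real.log (((j : ℝ) + 1) * H) :=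
      Real.log_le_log (by norm_num) (by nlinarith)
    have hl2 : Real.log (((j : ℝ) + 1) * H) ≤ Real.log (((j : ℝ) + 2) * H) :=
      Real.log_le_log (by nlinarith) (by nlinarith)
    have hs := step_real (20000 * Real.log (((j : ℝ) + 2) * H)) (A.card : ℝ) ((1 / 2 : ℝ) ^ j)
      (ten (j + 2) A : ℝ) (ten (j + 1) A : ℝ) j (by linarith) hn1 hθ0 hθ1
      (5000 * Real.log (((j : ℝ) + 2) * H)) (by linarith) (by linarith) (Nat.cast_nonneg _)
      (by
        have := ten_le (j + 1) A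
        have e : 2 * (j + 1) + 1 = 2 * j + 3 := by ring
        rw [e] at this
        exact_mod_cast this)
      (by
        refine ih.trans ?_
        apply mul_le_mul_of_nonneg_right _ (by positivity)
        apply Real.rpow_le_rpow (by linarith) (by linarith) (by linarith))
      (ten_rec H hH A hA j)
    have e1 : (((j + 1 : ℕ) : ℝ) + 1) = (j : ℝ) + 2 := by push_cast; ring
    have e2 : 2 - 2 * (1 / 2 : ℝ) ^ (j + 1) = 2 - (1 / 2 : ℝ) ^ j := by rw [pow_succ]; ring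
    have e3 : 2 * (((j + 1 : ℕ) : ℝ)) + (1 / 2 : ℝ) ^ (j + 1)
        = 2 * (j : ℝ) + 2 + (1 / 2 : ℝ) ^ j / 2 := by rw [pow_succ]; push_cast; ring
    rw [e1, e2, e3]
    exact hs

/-- Mixed energy, integers. -/
theorem mix_int (H : ℕ) (hH : 2 ≤ H) (A B : Finset ℤ)
    (hA : ∀ a ∈ A, ∃ x : ℤ, |x| ≤ (H : ℤ) ∧ a = x ^ 2)
    (hB : ∀ b ∈ B, |b| ≤ (H : ℤ) ^ 2) :
    (col (A ×ˢ B) (fun z : ℤ × ℤ => z.1 + z.2) : ℝ) ≤
      40000 * Real.log H * ((A.card : ℝ) * (B.card : ℝ) ^ ((3 : ℝ) / 2)) +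
      (40000 * Real.log H) ^ 2 * (B.card : ℝ) ^ 2 := by
  have hHr : (2 : ℝ) ≤ H := by exact_mod_cast hH
  have hA1 : ∀ a ∈ A, IsSquare a := by
    intro a ha
    obtain ⟨x, _, rfl⟩ := hA a ha
    exact ⟨x, by ring⟩
  have hA2 : ∀ a ∈ A, 0 ≤ a ∧ a ≤ (H : ℤ) ^ 2 := by
    intro a ha
    obtain ⟨x, hx, rfl⟩ := hA a ha
    refine ⟨sq_nonneg _, ?_⟩
    rw [← sq_abs]
    exact pow_le_pow_left₀ (abs_nonneg _) hx 2
  obtain ⟨M, hMd⟩ : ∃ M : ℝ, M = 3 * (H : ℝ) ^ 2 := ⟨_, rfl⟩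
  have hM : 2 ≤ M := by rw [hMd]; nlinarith
  have cast3 : ∀ z : ℤ, z ≤ 3 * (H : ℤ) ^ 2 → (z : ℝ) ≤ M := by
    intro z hz
    have : (z : ℝ) ≤ ((3 * (H : ℤ) ^ 2 : ℤ) : ℝ) := by exact_mod_cast hz
    push_cast at this
    rw [hMd]; exact this
  have hH2 : 0 ≤ (H : ℤ) ^ 2 := by positivity
  have hrec := recur M hM A hA1
    (by
      intro a ha
      obtain ⟨h1, h2⟩ := hA2 a ha
      apply cast3
      rw [abs_of_nonneg h1]
      linarith)
    (A ×ˢ B) B (fun z : ℤ × ℤ => z.1 + z.2) (fun b => b)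
    (by
      intro x hx y hy
      rw [Finset.mem_product] at hx hy
      obtain ⟨h1, h2⟩ := hA2 _ hx.1
      obtain ⟨h3, h4⟩ := hA2 _ hy.1
      have h5 := abs_le.mp (hB _ hx.2)
      have h6 := abs_le.mp (hB _ hy.2)
      apply cast3
      rw [abs_le]
      constructor <;> linarith [h5.1, h5.2, h6.1, h6.2])
    (by
      intro x hx y hy
      have h5 := abs_le.mp (hB _ hx)
      have h6 := abs_le.mp (hB _ hy)
      apply cast3
      rw [abs_le]
      constructor <;> linarith [h5.1, h5.2, h6.1, h6.2])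
    (by
      unfold col
      refine Finset.card_le_card_of_injOn (fun z => (z.1, z.2.2)) ?_ ?_
      · intro z hz
        have hz' := Finset.mem_coe.mp hz
        rw [Finset.mem_filter, Finset.mem_product, Finset.mem_product, Finset.mem_product] at hz'
        obtain ⟨⟨h1, h2⟩, h3⟩ := hz'
        have h3' : z.1.1 + z.1.2 = z.2.1 + z.2.2 := h3
        refine Finset.mem_coe.mpr (Finset.mem_filter.mpr ⟨Finset.mem_product.mpr
          ⟨Finset.mem_product.mpr h1, h2.2⟩, ?_⟩)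
        have e : z.1.1 + z.1.2 - z.2.2 = z.2.1 := by rw [h3']; ring
        show z.1.1 + z.1.2 - z.2.2 ∈ A
        rw [e]; exact h2.1
      · intro z hz w hw h
        have hz' := Finset.mem_coe.mp hz
        have hw' := Finset.mem_coe.mp hw
        rw [Finset.mem_filter] at hz' hw'
        have h3 : z.1.1 + z.1.2 = z.2.1 + z.2.2 := hz'.2
        have h4 : w.1.1 + w.1.2 = w.2.1 + w.2.2 := hw'.2
        simp only [Prod.mk.injEq] at h
        obtain ⟨h1, h2⟩ := h
        have e5 : z.2.1 = w.2.1 := by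
          rw [h1] at h3
          rw [h3, h2] at h4
          linarith
        exact Prod.ext h1 (Prod.ext e5 h2))
  have hcolB : (col B (fun b : ℤ => b) : ℝ) ≤ (B.card : ℝ) := by
    have : col B (fun b : ℤ => b) ≤ B.card := by
      unfold col
      refine Finset.card_le_card_of_injOn (fun z => z.1) ?_ ?_
      · intro z hz
        have hz' := Finset.mem_coe.mp hz
        rw [Finset.mem_filter, Finset.mem_product] at hz'
        exact Finset.mem_coe.mpr hz'.1.1
      · intro z hz w hw h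
        have hz' := Finset.mem_coe.mp hz
        have hw' := Finset.mem_coe.mp hw
        rw [Finset.mem_filter] at hz' hw'
        have h3 : z.1 = z.2 := hz'.2
        have h4 : w.1 = w.2 := hw'.2
        have h5 : z.1 = w.1 := h
        exact Prod.ext h5 (by rw [← h3, ← h4]; exact h5)
    exact_mod_cast this
  have hlM : Real.log M ≤ 4 * Real.log H := by
    have h1 : M ≤ (H : ℝ) ^ 4 := by
      have h4 : (4 : ℝ) ≤ (H : ℝ) ^ 2 := by nlinarith
      have e4 : (H : ℝ) ^ 4 = (H : ℝ) ^ 2 * (H : ℝ) ^ 2 := by ring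
      rw [hMd, e4]
      exact mul_le_mul_of_nonneg_right (by linarith) (by positivity)
    have h2 : Real.log M ≤ Real.log ((H : ℝ) ^ 4) := Real.log_le_log (by linarith) h1
    rw [Real.log_pow] at h2
    push_cast at h2
    exact h2
  have hlM0 : 0 ≤ Real.log M := Real.log_nonneg (by linarith)
  have hlH0 : 0 ≤ Real.log H := Real.log_nonneg (by linarith)
  have hw : (2500 * Real.log M) ^ 2 ≤ (10000 * Real.log H) ^ 2 :=
    pow_le_pow_left₀ (by linarith) (by linarith) 2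
  obtain ⟨n, hn⟩ : ∃ n : ℝ, n = (A.card : ℝ) := ⟨_, rfl⟩
  obtain ⟨m, hm⟩ : ∃ m : ℝ, m = (B.card : ℝ) := ⟨_, rfl⟩
  obtain ⟨l, hl⟩ : ∃ l : ℝ, l = Real.log H := ⟨_, rfl⟩
  obtain ⟨E, hE⟩ : ∃ E : ℝ, E = (col (A ×ˢ B) (fun z : ℤ × ℤ => z.1 + z.2) : ℝ) := ⟨_, rfl⟩
  have hn0 : 0 ≤ n := by rw [hn]; exact Nat.cast_nonneg _
  have hm0 : 0 ≤ m := by rw [hm]; exact Nat.cast_nonneg _
  have hcard : ((A ×ˢ B).card : ℝ) = n * m := by
    rw [Finset.card_product, hn, hm]; push_cast; ring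
  rw [hcard, ← hE, ← hm] at hrec
  rw [← hm] at hcolB
  rw [← hE, ← hn, ← hm, ← hl]
  rw [← hl] at hw hlH0
  have hmp : (m ^ ((3 : ℝ) / 2)) ^ 2 = m ^ 3 := by
    rw [← Real.rpow_natCast, ← Real.rpow_mul hm0]
    have : (3 : ℝ) / 2 * ((2 : ℕ) : ℝ) = ((3 : ℕ) : ℝ) := by push_cast; norm_num
    rw [this, Real.rpow_natCast]
  have hmp0 : 0 ≤ m ^ ((3 : ℝ) / 2) := Real.rpow_nonneg hm0 _
  rcases hrec with h | h
  · have h1 : E ≤ 40000 * l * (n * m ^ ((3 : ℝ) / 2)) := by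
      apply le_of_sq_le_sq _ (by positivity)
      calc E ^ 2 ≤ 8 * (2500 * Real.log M) ^ 2 * ((n * m) ^ 2 * (col B (fun b : ℤ => b) : ℝ)) := h
        _ ≤ 8 * (10000 * l) ^ 2 * ((n * m) ^ 2 * m) := by
            apply mul_le_mul
            · linarith
            · exact mul_le_mul_of_nonneg_left hcolB (sq_nonneg _)
            · positivity
            · positivity
        _ ≤ (40000 * l * (n * m ^ ((3 : ℝ) / 2))) ^ 2 := by
            have e : (40000 * l * (n * m ^ ((3 : ℝ) / 2))) ^ 2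
                = 1600000000 * (l ^ 2 * (n ^ 2 * m ^ 3)) := by
              rw [mul_pow, mul_pow, mul_pow, hmp]; ring
            rw [e]
            have e2 : 8 * (10000 * l) ^ 2 * ((n * m) ^ 2 * m)
                = 800000000 * (l ^ 2 * (n ^ 2 * m ^ 3)) := by ring
            rw [e2]
            have : 0 ≤ l ^ 2 * (n ^ 2 * m ^ 3) := by positivity
            linarith
    have : 0 ≤ (40000 * l) ^ 2 * m ^ 2 := by positivity
    linarith
  · have h1 : E ≤ (40000 * l) ^ 2 * m ^ 2 := by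
      refine h.trans ?_
      apply mul_le_mul_of_nonneg_right _ (sq_nonneg m)
      nlinarith
    have : 0 ≤ 40000 * l * (n * m ^ ((3 : ℝ) / 2)) := by positivity
    linarith

section transfer

variable {X X' G G' : Type*} [DecidableEq X] [DecidableEq X'] [DecidableEq G] [DecidableEq G']

lemma col_transfer (S : Finset X) (Φ : X → X') (hΦ : Function.Injective Φ) (φ : X → G)
    (φ' : X' → G') (h : ∀ x y, φ' (Φ x) = φ' (Φ y) ↔ φ x = φ y) :
    col (S.image Φ) φ' = col S φ := by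
  unfold col
  symm
  refine Finset.card_bij (fun z _ => (Φ z.1, Φ z.2)) ?_ ?_ ?_
  · intro z hz
    rw [Finset.mem_filter, Finset.mem_product] at hz ⊢
    exact ⟨⟨Finset.mem_image_of_mem _ hz.1.1, Finset.mem_image_of_mem _ hz.1.2⟩,
      (h _ _).mpr hz.2⟩
  · intro z _ w _ hzw
    simp only [Prod.mk.injEq] at hzw
    exact Prod.ext (hΦ hzw.1) (hΦ hzw.2)
  · intro w hw
    rw [Finset.mem_filter, Finset.mem_product] at hw
    obtain ⟨x, hx, e1⟩ := Finset.mem_image.mp hw.1.1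
    obtain ⟨y, hy, e2⟩ := Finset.mem_image.mp hw.1.2
    refine ⟨(x, y), ?_, ?_⟩
    · rw [Finset.mem_filter, Finset.mem_product]
      refine ⟨⟨hx, hy⟩, ?_⟩
      have h3 := hw.2
      rw [← e1, ← e2] at h3
      exact (h _ _).mp h3
    · exact Prod.ext e1 e2

end transfer

lemma tup_image (k : ℕ) (A : Finset ℤ) (ι : ℤ → ℚ) :
    tup k (A.image ι) = (tup k A).image (fun x i => ι (x i)) := by
  ext y
  rw [mem_tup, Finset.mem_image]
  constructor
  · intro h
    have h' : ∀ i, ∃ a ∈ A, ι a = y i := fun i => Finset.mem_image.mp (h i)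
    choose a ha hy using h'
    exact ⟨a, (mem_tup _ _ _).mpr ha, funext hy⟩
  · rintro ⟨x, hx, rfl⟩ i
    rw [mem_tup] at hx
    exact Finset.mem_image_of_mem _ (hx i)

lemma ten_image (k : ℕ) (A : Finset ℤ) (c : ℚ) (hc : c ≠ 0) :
    ten k (A.image (fun z : ℤ => (z : ℚ) * c)) = ten k A := by
  unfold ten
  rw [tup_image]
  have inj : ∀ z w : ℤ, (z : ℚ) * c = (w : ℚ) * c → z = w := by
    intro z w h
    have := mul_right_cancel₀ hc h
    exact_mod_cast this
  apply col_transfer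
  · intro x y h
    funext i
    exact inj _ _ (congrFun h i)
  · intro x y
    simp only
    rw [← Finset.sum_mul, ← Finset.sum_mul]
    constructor
    · intro h
      have := mul_right_cancel₀ hc h
      exact_mod_cast this
    · intro h
      have h' : (∑ i, (x i : ℚ)) = ∑ i, (y i : ℚ) := by exact_mod_cast h
      rw [h']

lemma mix_image (A B : Finset ℤ) (c : ℚ) (hc : c ≠ 0) :
    col ((A.image (fun z : ℤ => (z : ℚ) * c)) ×ˢ (B.image (fun z : ℤ => (z : ℚ) * c)))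
      (fun z : ℚ × ℚ => z.1 + z.2) = col (A ×ˢ B) (fun z : ℤ × ℤ => z.1 + z.2) := by
  have inj : ∀ z w : ℤ, (z : ℚ) * c = (w : ℚ) * c → z = w := by
    intro z w h
    have := mul_right_cancel₀ hc h
    exact_mod_cast this
  have e : (A.image (fun z : ℤ => (z : ℚ) * c)) ×ˢ (B.image (fun z : ℤ => (z : ℚ) * c))
      = (A ×ˢ B).image (fun z : ℤ × ℤ => ((z.1 : ℚ) * c, (z.2 : ℚ) * c)) := by
    ext ⟨u, v⟩
    simp only [Finset.mem_product, Finset.mem_image, Prod.mk.injEq, Prod.exists]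
    constructor
    · rintro ⟨⟨a, ha, e1⟩, ⟨b, hb, e2⟩⟩
      exact ⟨a, b, ⟨ha, hb⟩, e1, e2⟩
    · rintro ⟨a, b, ⟨ha, hb⟩, e1, e2⟩
      exact ⟨⟨a, ha, e1⟩, ⟨b, hb, e2⟩⟩
  rw [e]
  apply col_transfer
  · intro x y h
    simp only [Prod.mk.injEq] at h
    exact Prod.ext (inj _ _ h.1) (inj _ _ h.2)
  · intro x y
    simp only
    rw [← add_mul, ← add_mul]
    constructor
    · intro h
      have := mul_right_cancel₀ hc h
      exact_mod_cast this
    · intro h
      have h' : ((x.1 : ℚ) + (x.2 : ℚ)) = (y.1 : ℚ) + (y.2 : ℚ) := by exact_mod_cast h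
      rw [h']

/-- Descent to integers. -/
lemma descend (H : ℕ) (r : ℚ) (A : Finset ℚ) (hr : r ≠ 0)
    (hA : ∀ a ∈ A, ∃ x : ℤ, |x| ≤ (H : ℤ) ∧ a = (r * (x : ℚ)) ^ 2) :
    ∃ A' : Finset ℤ, (∀ a ∈ A', ∃ x : ℤ, |x| ≤ (H : ℤ) ∧ a = x ^ 2) ∧
      A'.image (fun z : ℤ => (z : ℚ) * r ^ 2) = A ∧ A'.card = A.card := by
  classical
  have hr0 : r ^ 2 ≠ 0 := pow_ne_zero 2 hr
  have inj : Function.Injective (fun z : ℤ => (z : ℚ) * r ^ 2) := by
    intro z w h
    have := mul_right_cancel₀ hr0 h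
    exact_mod_cast this
  refine ⟨A.image (fun a => (a / r ^ 2).num), ?_, ?_, ?_⟩
  · intro z hz
    obtain ⟨a, ha, rfl⟩ := Finset.mem_image.mp hz
    obtain ⟨x, hx, e⟩ := hA a ha
    refine ⟨x, hx, ?_⟩
    have e1 : a / r ^ 2 = ((x ^ 2 : ℤ) : ℚ) := by
      rw [e]; push_cast; field_simp
    rw [e1]; exact Rat.num_intCast _
  · have key : ∀ a ∈ A, ((a / r ^ 2).num : ℚ) * r ^ 2 = a := by
      intro a ha
      obtain ⟨x, hx, e⟩ := hA a ha
      have e1 : a / r ^ 2 = ((x ^ 2 : ℤ) : ℚ) := by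
        rw [e]; push_cast; field_simp
      rw [e1, Rat.num_intCast, ← e1]
      field_simp
    rw [Finset.image_image]
    ext a
    rw [Finset.mem_image]
    constructor
    · rintro ⟨b, hb, e⟩
      have := key b hb
      simp only [Function.comp] at e
      rw [this] at e
      rw [← e]; exact hb
    · intro ha
      exact ⟨a, ha, key a ha⟩
  · apply Finset.card_image_of_injOn
    intro a ha b hb hab
    have key : ∀ a ∈ A, ((a / r ^ 2).num : ℚ) * r ^ 2 = a := by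
      intro a ha
      obtain ⟨x, hx, e⟩ := hA a ha
      have e1 : a / r ^ 2 = ((x ^ 2 : ℤ) : ℚ) := by
        rw [e]; push_cast; field_simp
      rw [e1, Rat.num_intCast, ← e1]
      field_simp
    simp only at hab
    rw [← key a ha, ← key b hb, hab]

lemma descendB (H : ℕ) (r : ℚ) (B : Finset ℚ) (hr : r ≠ 0)
    (hB : ∀ b ∈ B, ∃ z : ℤ, |z| ≤ (H : ℤ) ^ 2 ∧ b = r ^ 2 * (z : ℚ)) :
    ∃ B' : Finset ℤ, (∀ b ∈ B', |b| ≤ (H : ℤ) ^ 2) ∧
      B'.image (fun z : ℤ => (z : ℚ) * r ^ 2) = B ∧ B'.card = B.card := by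
  classical
  have hr0 : r ^ 2 ≠ 0 := pow_ne_zero 2 hr
  have key : ∀ b ∈ B, |(b / r ^ 2).num| ≤ (H : ℤ) ^ 2 ∧ ((b / r ^ 2).num : ℚ) * r ^ 2 = b := by
    intro b hb
    obtain ⟨z, hz, e⟩ := hB b hb
    have e1 : b / r ^ 2 = (z : ℚ) := by rw [e]; field_simp
    rw [e1, Rat.num_intCast]
    exact ⟨hz, by rw [e]; ring⟩
  refine ⟨B.image (fun a => (a / r ^ 2).num), ?_, ?_, ?_⟩
  · intro z hz
    obtain ⟨a, ha, rfl⟩ := Finset.mem_image.mp hz
    exact (key a ha).1
  · rw [Finset.image_image]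
    ext a
    rw [Finset.mem_image]
    constructor
    · rintro ⟨b, hb, e⟩
      have := (key b hb).2
      simp only [Function.comp] at e
      rw [this] at e
      rw [← e]; exact hb
    · intro ha
      exact ⟨a, ha, (key a ha).2⟩
  · apply Finset.card_image_of_injOn
    intro a ha b hb hab
    simp only at hab
    rw [← (key a ha).2, ← (key b hb).2, hab]

end H45SQ
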