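import Pool.Agent.H45.SQ.En
import Pool.Agent.H45.SQ.Al

set_option autoImplicit false

namespace H45SQ

open Finset H91SQ

lemma dg_sum (A D : Finset ℤ) : ∑ a ∈ A, dg A D a = ∑ s ∈ D, rep A s := by
  have h1 : ∑ a ∈ A, dg A D a = ((A ×ˢ A).filter (fun p : ℤ × ℤ => p.1 - p.2 ∈ D)).card := by
    rw [Finset.card_filter, Finset.sum_product]
    refine Finset.sum_congr rfl fun a _ => ?_
    unfold dg
    rw [Finset.card_filter]
  rw [h1, Finset.card_eq_sum_card_fiberwise (f := fun p : ℤ × ℤ => p.1 - p.2) (t := D)]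
  · refine Finset.sum_congr rfl fun s hs => ?_
    unfold rep
    congr 1
    ext p
    simp only [Finset.mem_filter]
    constructor
    · rintro ⟨⟨h1, _⟩, h3⟩
      exact ⟨h1, h3⟩
    · rintro ⟨h1, h3⟩
      exact ⟨⟨h1, by rw [h3]; exact hs⟩, h3⟩
  · intro p hp
    exact Finset.mem_coe.mpr (Finset.mem_filter.mp (Finset.mem_coe.mp hp)).2

lemma en_ge (A : Finset ℤ) : A.card ^ 2 ≤ en A := by
  unfold en
  rw [pow_two, ← Finset.card_product]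
  refine Finset.card_le_card_of_injOn (fun p => (p.1, p.2, p.1, p.2)) ?_ ?_
  · intro p hp
    have hp' := Finset.mem_product.mp (Finset.mem_coe.mp hp)
    refine Finset.mem_coe.mpr (Finset.mem_filter.mpr ⟨?_, rfl⟩)
    exact Finset.mem_product.mpr ⟨hp'.1, Finset.mem_product.mpr ⟨hp'.2, Finset.mem_product.mpr hp'⟩⟩
  · intro p _ q _ h
    simp only [Prod.mk.injEq] at h
    exact Prod.ext h.1 h.2.1

/-- The bound for integers. -/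
theorem int17 (H : ℕ) (hH : 2 ≤ H) (A : Finset ℤ)
    (hA : ∀ a ∈ A, ∃ x : ℤ, |x| ≤ (H : ℤ) ∧ a = x ^ 2) (hA0 : A.card ≠ 0) :
    (en A : ℝ) ^ 7 ≤ 2 ^ 28 * (LL A : ℝ) ^ 15 * vv H ^ 5 * (A.card : ℝ) ^ 17 := by
  have hv1 := vv_one H hH
  have hv0 : 0 ≤ vv H := by linarith
  have hn1 : (1 : ℝ) ≤ (A.card : ℝ) := by exact_mod_cast Nat.one_le_iff_ne_zero.mpr hA0
  have hLL : 0 < LL A := by unfold LL; omega
  have hΛ1 : (1 : ℝ) ≤ (LL A : ℝ) := by exact_mod_cast hLL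
  obtain ⟨n, hn⟩ : ∃ n : ℝ, n = (A.card : ℝ) := ⟨_, rfl⟩
  obtain ⟨v, hv⟩ : ∃ v : ℝ, v = vv H := ⟨_, rfl⟩
  obtain ⟨Λ, hΛ⟩ : ∃ Λ : ℝ, Λ = (LL A : ℝ) := ⟨_, rfl⟩
  obtain ⟨E, hE⟩ : ∃ E : ℝ, E = (en A : ℝ) := ⟨_, rfl⟩
  have hEn : n ^ 2 ≤ E := by rw [hn, hE]; exact_mod_cast en_ge A
  have hEn3 : E ≤ n ^ 3 := by rw [hn, hE]; exact_mod_cast en_le_cube A
  have hEsum : E = ∑ s ∈ dif A, (rep A s : ℝ) ^ 2 := by
    rw [hE, en_eq]; push_cast; rfl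
  -- the level of the energy
  obtain ⟨j, _, hj⟩ := pig hLL (fun i => ∑ s ∈ Dl A i, (rep A s : ℝ) ^ 2) E
    (by rw [hEsum, sum_lv])
  obtain ⟨D, hD⟩ : ∃ D : Finset ℤ, D = Dl A j := ⟨_, rfl⟩
  have hDsub : D ⊆ dif A := by rw [hD]; exact Dl_sub A j
  obtain ⟨τ, hτ⟩ : ∃ τ : ℝ, τ = 2 ^ j := ⟨_, rfl⟩
  have hτ0 : 0 ≤ τ := by rw [hτ]; positivity
  have hDge : ∀ s ∈ D, τ ≤ (rep A s : ℝ) := by
    intro s hs
    rw [hD] at hs
    rw [hτ]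
    exact_mod_cast rep_ge hs
  have hDlt : ∀ s ∈ D, (rep A s : ℝ) ≤ 2 * τ := by
    intro s hs
    rw [hD] at hs
    have h := (rep_lt hs).le
    have h' : (rep A s : ℝ) ≤ 2 ^ (j + 1) := by exact_mod_cast h
    rw [hτ, ← pow_succ']
    exact h'
  obtain ⟨X, hX⟩ : ∃ X : ℝ, X = (D.card : ℝ) := ⟨_, rfl⟩
  have hX0 : 0 ≤ X := by rw [hX]; exact Nat.cast_nonneg _
  have h1 : E ≤ 4 * Λ * (X * τ ^ 2) := by
    have h2 : ∑ s ∈ Dl A j, (rep A s : ℝ) ^ 2 ≤ X * (2 * τ) ^ 2 := by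
      rw [← hD, hX, ← nsmul_eq_mul, ← Finset.sum_const]
      exact Finset.sum_le_sum fun s hs => pow_le_pow_left₀ (Nat.cast_nonneg _) (hDlt s hs) 2
    have h3 : E ≤ Λ * (X * (2 * τ) ^ 2) := by
      refine hj.trans ?_
      rw [← hΛ]
      exact mul_le_mul_of_nonneg_left h2 (by rw [hΛ]; linarith)
    calc E ≤ Λ * (X * (2 * τ) ^ 2) := h3
      _ = 4 * Λ * (X * τ ^ 2) := by ring
  rcases lev_bound H hH A hA D hDsub τ hτ0 hDge with h2 | h2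
  swap
  · rw [← hX, ← hn, ← hv] at h2
    rw [← hn, ← hv, ← hΛ, ← hE]
    rw [← hn] at hn1
    rw [← hv] at hv1 hv0
    rw [← hΛ] at hΛ1
    have h3 : E ≤ 4 * Λ * (v * n ^ 2) := by
      refine h1.trans ?_
      have : X * τ ^ 2 ≤ v * n ^ 2 := by linarith
      exact mul_le_mul_of_nonneg_left this (by linarith)
    have hE0 : 0 ≤ E := le_trans (by positivity) hEn
    have hn0 : 0 ≤ n := by linarith
    have hΛ0 : 0 ≤ Λ := by linarith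
    calc E ^ 7 = E ^ 5 * E ^ 2 := by ring
      _ ≤ (4 * Λ * (v * n ^ 2)) ^ 5 * (n ^ 3) ^ 2 := by gcongr
      _ = 2 ^ 10 * Λ ^ 5 * v ^ 5 * n ^ 16 := by ring
      _ ≤ 2 ^ 28 * Λ ^ 15 * v ^ 5 * n ^ 17 := by
          gcongr <;> first | assumption | norm_num
  -- the level of the difference of two elements of D
  obtain ⟨m, hm⟩ : ∃ m : ℝ, m = ∑ a ∈ A, (dg A D a : ℝ) := ⟨_, rfl⟩
  have hmX : τ * X ≤ m := by
    have : m = ∑ s ∈ D, (rep A s : ℝ) := by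
      rw [hm]
      exact_mod_cast dg_sum A D
    rw [this, hX, mul_comm, ← nsmul_eq_mul, ← Finset.sum_const]
    exact Finset.sum_le_sum fun s hs => hDge s hs
  have hw := walks3 A D (by rw [hD]; exact Dl_neg A j)
  have hT := TT_low A D τ hτ0 hDge
  obtain ⟨W, hW⟩ : ∃ W : ℝ, W = ∑ a ∈ A, ∑ b ∈ A.filter (fun c => a - c ∈ D),
        (dg A D a : ℝ) * (dg A D b : ℝ) := ⟨_, rfl⟩
  rw [← hm, ← hW, ← hn] at hw
  rw [← hW, ← hn] at hT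
  obtain ⟨k, _, hk⟩ := pig hLL (fun k => 2 * 2 ^ k * (tk A D k : ℝ)) (TT A D) (TT_le A D)
  obtain ⟨t, ht⟩ : ∃ t : ℝ, t = (tk A D k : ℝ) := ⟨_, rfl⟩
  have ht0 : 0 ≤ t := by rw [ht]; exact Nat.cast_nonneg _
  obtain ⟨ρ, hρ⟩ : ∃ ρ : ℝ, ρ = 2 ^ k := ⟨_, rfl⟩
  have hρ0 : 0 ≤ ρ := by rw [hρ]; positivity
  have hk' : TT A D ≤ Λ * (2 * ρ * t) := by rw [hΛ, hρ, ht]; exact hk
  have hn0 : 0 ≤ n := by rw [hn]; linarith
  have h3 : X ^ 3 * τ ^ 4 ≤ 2 * Λ * n ^ 3 * ρ * t := by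
    have ha : (τ * X) ^ 3 ≤ m ^ 3 := pow_le_pow_left₀ (by positivity) hmX 3
    calc X ^ 3 * τ ^ 4 = τ * (τ * X) ^ 3 := by ring
      _ ≤ τ * m ^ 3 := mul_le_mul_of_nonneg_left ha hτ0
      _ ≤ τ * (n ^ 2 * W) := mul_le_mul_of_nonneg_left hw hτ0
      _ = n ^ 2 * (τ * W) := by ring
      _ ≤ n ^ 2 * (n * TT A D) := mul_le_mul_of_nonneg_left hT (by positivity)
      _ = n ^ 3 * TT A D := by ring
      _ ≤ n ^ 3 * (Λ * (2 * ρ * t)) := mul_le_mul_of_nonneg_left hk' (by positivity)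
      _ = 2 * Λ * n ^ 3 * ρ * t := by ring
  obtain ⟨N, hN⟩ : ∃ N : ℝ, N = ((XY A D k).card : ℝ) := ⟨_, rfl⟩
  have hN0 : 0 ≤ N := by rw [hN]; exact Nat.cast_nonneg _
  -- the level of the translation
  obtain ⟨i, _, hi⟩ := pig hLL (fun i => ∑ s ∈ Dl A i, (Ss A D k s : ℝ))
    (∑ s ∈ dif A, (Ss A D k s : ℝ)) (by rw [sum_lv])
  obtain ⟨S, hS⟩ : ∃ S : ℝ, S = ∑ s ∈ Dl A i, (Ss A D k s : ℝ) := ⟨_, rfl⟩
  have hS0 : 0 ≤ S := by
    rw [hS]; exact Finset.sum_nonneg fun _ _ => Nat.cast_nonneg _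
  have hi' : ∑ s ∈ dif A, (Ss A D k s : ℝ) ≤ Λ * S := by rw [hΛ, hS]; exact hi
  have h4 : t ^ 2 ≤ N * (Λ * S) := by
    have ha : t = ∑ z ∈ XY A D k, ((QQ A z).card : ℝ) := by
      rw [ht]; unfold tk; push_cast; rfl
    have hb : ∑ z ∈ XY A D k, ((QQ A z).card : ℝ) ^ 2 = ∑ s ∈ dif A, (Ss A D k s : ℝ) := by
      exact_mod_cast sum_sq_QQ A D k
    have hc : t ^ 2 ≤ N * ∑ z ∈ XY A D k, ((QQ A z).card : ℝ) ^ 2 := by
      rw [ha, hN]; exact sq_sum_le_card_mul_sum_sq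
    rw [hb] at hc
    exact hc.trans (mul_le_mul_of_nonneg_left hi' hN0)
  obtain ⟨σ, hσ⟩ : ∃ σ : ℝ, σ = 2 ^ i := ⟨_, rfl⟩
  have hσ0 : 0 ≤ σ := by rw [hσ]; positivity
  obtain ⟨Z, hZ⟩ : ∃ Z : ℝ, Z = ((Dl A i).card : ℝ) := ⟨_, rfl⟩
  have hZ0 : 0 ≤ Z := by rw [hZ]; exact Nat.cast_nonneg _
  have hilt : ∀ s ∈ Dl A i, (rep A s : ℝ) ≤ 2 * σ := by
    intro s hs
    have h := (rep_lt hs).le
    have h' : (rep A s : ℝ) ≤ 2 ^ (i + 1) := by exact_mod_cast h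
    rw [hσ, ← pow_succ']
    exact h'
  have hcube : ∀ s, (Ss A D k s : ℝ) ≤ (rep A s : ℝ) ^ 3 := by
    intro s
    exact_mod_cast Ss_le_cube A D k s
  have h5 : (σ ^ 2 ≤ v * n ∧ S ≤ 2 * σ * E) ∨
      (σ ^ 2 * Z ≤ v * n ^ 2 ∧ S ≤ 8 * σ ^ 3 * Z ∧ S ≤ t * Z) := by
    rcases lev_bound H hH A hA (Dl A i) (Dl_sub A i) σ hσ0
      (fun s hs => by rw [hσ]; exact_mod_cast rep_ge hs) with h | h
    · left
      rw [← hv, ← hn] at h
      refine ⟨h, ?_⟩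
      have ha : S ≤ ∑ s ∈ Dl A i, 2 * σ * (rep A s : ℝ) ^ 2 := by
        rw [hS]
        refine Finset.sum_le_sum fun s hs => (hcube s).trans ?_
        have hb := hilt s hs
        calc (rep A s : ℝ) ^ 3 = (rep A s : ℝ) * (rep A s : ℝ) ^ 2 := by ring
          _ ≤ 2 * σ * (rep A s : ℝ) ^ 2 := mul_le_mul_of_nonneg_right hb (sq_nonneg _)
      refine ha.trans ?_
      rw [← Finset.mul_sum]
      apply mul_le_mul_of_nonneg_left _ (by positivity)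
      rw [hEsum]
      exact Finset.sum_le_sum_of_subset_of_nonneg (Dl_sub A i) (fun _ _ _ => sq_nonneg _)
    · right
      rw [← hv, ← hn, ← hZ] at h
      refine ⟨h, ?_, ?_⟩
      · have ha : S ≤ ∑ _s ∈ Dl A i, 8 * σ ^ 3 := by
          rw [hS]
          refine Finset.sum_le_sum fun s hs => (hcube s).trans ?_
          have hb := pow_le_pow_left₀ (Nat.cast_nonneg (rep A s)) (hilt s hs) 3
          calc (rep A s : ℝ) ^ 3 ≤ (2 * σ) ^ 3 := hb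
            _ = 8 * σ ^ 3 := by ring
        rw [Finset.sum_const, nsmul_eq_mul, ← hZ] at ha
        linarith
      · have ha : S ≤ ∑ _s ∈ Dl A i, t := by
          rw [hS]
          refine Finset.sum_le_sum fun s hs => ?_
          rw [ht]
          exact_mod_cast Ss_le_t A D k s
        rw [Finset.sum_const, nsmul_eq_mul, ← hZ] at ha
        linarith
  have h6 : (N * ρ) ^ 2 ≤ 2 * v ^ 2 * (n ^ 2 * X ^ 3) := by
    have ha : N * ρ ≤ (col (A ×ˢ D) (fun z : ℤ × ℤ => z.1 + z.2) : ℝ) := by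
      rw [hN, hρ]
      exact_mod_cast N_le_col A D k
    refine (pow_le_pow_left₀ (by positivity) ha 2).trans ?_
    rw [hv, hn, hX]
    exact mix_bound H hH A hA D hDsub
  have h7 : ρ ^ 2 ≤ v * n ∨ (ρ ^ 2 * ((Dl A k).card : ℝ) ≤ v * n ^ 2 ∧
      N ≤ X * ((Dl A k).card : ℝ)) := by
    rcases lev_bound H hH A hA (Dl A k) (Dl_sub A k) ρ hρ0
      (fun s hs => by rw [hρ]; exact_mod_cast rep_ge hs) with h | h
    · left
      rw [← hv, ← hn] at h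
      exact h
    · right
      rw [← hv, ← hn] at h
      refine ⟨h, ?_⟩
      rw [hN, hX]
      exact_mod_cast N_le_prod A D k
  rw [← hv, ← hn] at h2
  rw [← hn, ← hv, ← hΛ, ← hE]
  exact al E n X τ ρ ((Dl A k).card : ℝ) N t σ Z S Λ v (by rw [hΛ]; exact hΛ1)
    (by rw [hv]; exact hv1) (by rw [hn]; exact hn1) hEn hX0 hτ0 hρ0 hN0 ht0 hσ0 hZ0 hS0
    h1 h2 h3 h4 h5 h6 h7

end H45SQ
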