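import Pool.Agent.H45.SQ.Bil

set_option autoImplicit false

namespace H45SQ

open Finset

section count

variable {G X Y : Type*} [DecidableEq G] [DecidableEq X] [DecidableEq Y]

/-- Counting pairs by the values of two maps. -/
lemma count_pairs (S : Finset X) (R : Finset Y) (φ : X → G) (ψ : Y → G)
    (p : G → G → Prop) [∀ u v, Decidable (p u v)] :
    ((S ×ˢ R).filter (fun z : X × Y => p (φ z.1) (ψ z.2))).card
      = ∑ u ∈ S.image φ, ∑ v ∈ R.image ψ,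
          if p u v then (S.filter (fun x => φ x = u)).card * (R.filter (fun y => ψ y = v)).card
          else 0 := by
  rw [← Finset.sum_product' (S.image φ) (R.image ψ)
    (fun u v => if p u v then (S.filter (fun x => φ x = u)).card *
      (R.filter (fun y => ψ y = v)).card else 0)]
  rw [Finset.card_eq_sum_card_fiberwise (f := fun z : X × Y => (φ z.1, ψ z.2))
    (t := S.image φ ×ˢ R.image ψ)]
  · refine Finset.sum_congr rfl (fun w hw => ?_)
    obtain ⟨u, v⟩ := w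
    split_ifs with h
    · rw [← Finset.card_product]
      congr 1
      ext ⟨x, y⟩
      simp only [Finset.mem_filter, Finset.mem_product, Prod.mk.injEq]
      constructor
      · rintro ⟨⟨⟨h1, h2⟩, _⟩, h4, h5⟩
        exact ⟨⟨h1, h4⟩, h2, h5⟩
      · rintro ⟨⟨h1, h4⟩, h2, h5⟩
        refine ⟨⟨⟨h1, h2⟩, ?_⟩, h4, h5⟩
        rw [h4, h5]; exact h
    · rw [Finset.card_eq_zero, Finset.filter_eq_empty_iff]
      rintro ⟨x, y⟩ hxy hw'
      simp only [Prod.mk.injEq] at hw'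
      rw [Finset.mem_filter] at hxy
      apply h
      have := hxy.2
      simp only [hw'.1, hw'.2] at this
      exact this
  · intro z hz
    have hz' := Finset.mem_coe.mp hz
    rw [Finset.mem_filter, Finset.mem_product] at hz'
    exact Finset.mem_coe.mpr (Finset.mem_product.mpr
      ⟨Finset.mem_image_of_mem _ hz'.1.1, Finset.mem_image_of_mem _ hz'.1.2⟩)

/-- The number of pairs with the same value. -/
def col (S : Finset X) (φ : X → G) : ℕ :=
  ((S ×ˢ S).filter (fun z : X × X => φ z.1 = φ z.2)).card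

lemma col_eq (S : Finset X) (φ : X → G) :
    col S φ = ∑ u ∈ S.image φ, (S.filter (fun x => φ x = u)).card ^ 2 := by
  unfold col
  rw [count_pairs S S φ φ (fun u v => u = v)]
  refine Finset.sum_congr rfl (fun u hu => ?_)
  rw [Finset.sum_ite_eq, if_pos hu, pow_two]

lemma col_le (S : Finset X) (φ : X → G) : col S φ ≤ S.card ^ 2 := by
  unfold col
  refine (Finset.card_filter_le _ _).trans (le_of_eq ?_)
  rw [Finset.card_product, pow_two]

lemma le_col (S : Finset X) (φ : X → G) : S.card ≤ col S φ := by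
  unfold col
  refine Finset.card_le_card_of_injOn (fun x => (x, x)) ?_ ?_
  · intro x hx
    have hx' := Finset.mem_coe.mp hx
    exact Finset.mem_coe.mpr (Finset.mem_filter.mpr ⟨Finset.mem_product.mpr ⟨hx', hx'⟩, rfl⟩)
  · intro x _ y _ h
    exact congrArg Prod.fst h

/-- Cauchy-Schwarz: few pairs with equal value give many values. -/
lemma card_sq_le (S : Finset X) (φ : X → G) : S.card ^ 2 ≤ (S.image φ).card * col S φ := by
  rw [col_eq, Finset.card_eq_sum_card_image φ S]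
  exact sq_sum_le_card_mul_sum_sq

end count

section recur

variable {X Y : Type*} [DecidableEq X] [DecidableEq Y]

/-- Representations of squares as differences of two sequences of integers. -/
theorem pairs_le (M t : ℝ) (hM : 2 ≤ M) (ht : 1 ≤ t) (A : Finset ℤ)
    (hA : ∀ a ∈ A, IsSquare a) (hAM : ∀ a ∈ A, ((|a| : ℤ) : ℝ) ≤ M)
    (S : Finset X) (R : Finset Y) (φ : X → ℤ) (ψ : Y → ℤ)
    (hφ : ∀ x ∈ S, ∀ x' ∈ S, ((|φ x - φ x'| : ℤ) : ℝ) ≤ M)
    (hψ : ∀ y ∈ R, ∀ y' ∈ R, ((|ψ y - ψ y'| : ℤ) : ℝ) ≤ M) :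
    (((S ×ˢ R).filter (fun z : X × Y => φ z.1 - ψ z.2 ∈ A)).card : ℝ) ^ 2 ≤
      2 * (2500 * Real.log M) ^ 2 *
        ((t * (col S φ : ℝ) + (S.card : ℝ) ^ 2 / t) * (t * (col R ψ : ℝ) + (R.card : ℝ) ^ 2 / t))
      + 2 * ((col S φ : ℝ) * (col R ψ : ℝ)) := by
  obtain ⟨f, hf⟩ : ∃ f : ℤ → ℝ, f = fun u => ((S.filter (fun x => φ x = u)).card : ℝ) := ⟨_, rfl⟩
  obtain ⟨g, hg⟩ : ∃ g : ℤ → ℝ, g = fun v => ((R.filter (fun y => ψ y = v)).card : ℝ) := ⟨_, rfl⟩
  have f0 : ∀ u, 0 ≤ f u := by intro u; rw [hf]; exact Nat.cast_nonneg _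
  have g0 : ∀ u, 0 ≤ g u := by intro u; rw [hg]; exact Nat.cast_nonneg _
  have F1 : ∑ u ∈ S.image φ, f u = (S.card : ℝ) := by
    rw [hf, Finset.card_eq_sum_card_image φ S]
    push_cast; rfl
  have G1 : ∑ v ∈ R.image ψ, g v = (R.card : ℝ) := by
    rw [hg, Finset.card_eq_sum_card_image ψ R]
    push_cast; rfl
  have F2 : ∑ u ∈ S.image φ, f u ^ 2 = (col S φ : ℝ) := by
    rw [hf, col_eq]
    push_cast; rfl
  have G2 : ∑ v ∈ R.image ψ, g v ^ 2 = (col R ψ : ℝ) := by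
    rw [hg, col_eq]
    push_cast; rfl
  have hb := bil M t hM ht (S.image φ) (R.image ψ) f g (fun u _ => f0 u) (fun v _ => g0 v)
    (by
      intro b hb b' hb'
      obtain ⟨x, hx, rfl⟩ := Finset.mem_image.mp hb
      obtain ⟨x', hx', rfl⟩ := Finset.mem_image.mp hb'
      exact hφ x hx x' hx')
    (by
      intro b hb b' hb'
      obtain ⟨x, hx, rfl⟩ := Finset.mem_image.mp hb
      obtain ⟨x', hx', rfl⟩ := Finset.mem_image.mp hb'
      exact hψ x hx x' hx')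
    (fun u v => u - v ∈ A ∧ u ≠ v)
    (by
      intro b _ v _ h
      exact ⟨hA _ h.1, sub_ne_zero.mpr h.2, hAM _ h.1⟩)
  rw [F1, F2, G1, G2] at hb
  obtain ⟨I, hI⟩ : ∃ I : ℝ, I = ∑ b ∈ S.image φ, ∑ v ∈ R.image ψ,
    if b - v ∈ A ∧ b ≠ v then f b * g v else 0 := ⟨_, rfl⟩
  rw [← hI] at hb
  obtain ⟨Z, hZ⟩ : ∃ Z : ℝ, Z = ∑ b ∈ S.image φ ∩ R.image ψ, f b * g b := ⟨_, rfl⟩
  have hZ2 : Z ^ 2 ≤ (col S φ : ℝ) * (col R ψ : ℝ) := by
    rw [hZ, ← F2, ← G2]
    calc (∑ b ∈ S.image φ ∩ R.image ψ, f b * g b) ^ 2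
        ≤ (∑ b ∈ S.image φ ∩ R.image ψ, f b ^ 2) * (∑ b ∈ S.image φ ∩ R.image ψ, g b ^ 2) :=
          Finset.sum_mul_sq_le_sq_mul_sq _ _ _
      _ ≤ _ := by
          apply mul_le_mul
          · exact Finset.sum_le_sum_of_subset_of_nonneg Finset.inter_subset_left
              (fun _ _ _ => sq_nonneg _)
          · exact Finset.sum_le_sum_of_subset_of_nonneg Finset.inter_subset_right
              (fun _ _ _ => sq_nonneg _)
          · exact Finset.sum_nonneg (fun _ _ => sq_nonneg _)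
          · exact Finset.sum_nonneg (fun _ _ => sq_nonneg _)
  have hJ : (((S ×ˢ R).filter (fun z : X × Y => φ z.1 - ψ z.2 ∈ A)).card : ℝ) ≤ I + Z := by
    rw [count_pairs S R φ ψ (fun u v => u - v ∈ A)]
    push_cast
    have e1 : ∀ b ∈ S.image φ, ∀ v ∈ R.image ψ,
        ((if b - v ∈ A then ((S.filter (fun x => φ x = b)).card : ℝ) *
          ((R.filter (fun y => ψ y = v)).card : ℝ) else 0) : ℝ)
        ≤ (if b - v ∈ A ∧ b ≠ v then f b * g v else 0) + (if b = v then f b * g v else 0) := by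
      intro b _ v _
      have h0 : 0 ≤ f b * g v := mul_nonneg (f0 b) (g0 v)
      have h1 : ((S.filter (fun x => φ x = b)).card : ℝ) * ((R.filter (fun y => ψ y = v)).card : ℝ)
          = f b * g v := by rw [hf, hg]
      rw [h1]
      by_cases hbv : b = v
      · rw [if_pos hbv]
        split_ifs <;> linarith
      · rw [if_neg hbv]
        by_cases hA' : b - v ∈ A
        · rw [if_pos hA', if_pos ⟨hA', hbv⟩]; linarith
        · rw [if_neg hA', if_neg (fun h => hA' h.1)]; linarith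
    have e2 : ∑ b ∈ S.image φ, ∑ v ∈ R.image ψ, (if b = v then f b * g v else 0) = Z := by
      rw [hZ, ← Finset.filter_mem_eq_inter, Finset.sum_filter]
      refine Finset.sum_congr rfl (fun b _ => ?_)
      rw [Finset.sum_ite_eq]
    calc _ ≤ ∑ b ∈ S.image φ, ∑ v ∈ R.image ψ,
          ((if b - v ∈ A ∧ b ≠ v then f b * g v else 0) + (if b = v then f b * g v else 0)) :=
          Finset.sum_le_sum (fun b hb => Finset.sum_le_sum (fun v hv => e1 b hb v hv))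
      _ = I + Z := by
          simp only [Finset.sum_add_distrib]
          rw [e2, ← hI]
  have hI0 : 0 ≤ I := by
    rw [hI]
    refine Finset.sum_nonneg (fun b _ => Finset.sum_nonneg (fun v _ => ?_))
    split_ifs
    · exact mul_nonneg (f0 b) (g0 v)
    · exact le_refl _
  have hZ0 : 0 ≤ Z := by
    rw [hZ]; exact Finset.sum_nonneg (fun b _ => mul_nonneg (f0 b) (g0 b))
  calc _ ≤ (I + Z) ^ 2 := pow_le_pow_left₀ (Nat.cast_nonneg _) hJ 2
    _ ≤ 2 * I ^ 2 + 2 * Z ^ 2 := by nlinarith [sq_nonneg (I - Z)]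
    _ ≤ _ := by nlinarith

/-- The recursive inequality. -/
theorem recur (M : ℝ) (hM : 2 ≤ M) (A : Finset ℤ)
    (hA : ∀ a ∈ A, IsSquare a) (hAM : ∀ a ∈ A, ((|a| : ℤ) : ℝ) ≤ M)
    (S : Finset X) (R : Finset Y) (φ : X → ℤ) (ψ : Y → ℤ)
    (hφ : ∀ x ∈ S, ∀ x' ∈ S, ((|φ x - φ x'| : ℤ) : ℝ) ≤ M)
    (hψ : ∀ y ∈ R, ∀ y' ∈ R, ((|ψ y - ψ y'| : ℤ) : ℝ) ≤ M)
    (hJ : col S φ ≤ ((S ×ˢ R).filter (fun z : X × Y => φ z.1 - ψ z.2 ∈ A)).card) :
    (col S φ : ℝ) ^ 2 ≤ 8 * (2500 * Real.log M) ^ 2 * ((S.card : ℝ) ^ 2 * (col R ψ : ℝ)) ∨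
      (col S φ : ℝ) ≤ 12 * (2500 * Real.log M) ^ 2 * (R.card : ℝ) ^ 2 := by
  have hlog2 : (0.69 : ℝ) ≤ Real.log M := by
    have h1 := Real.log_two_gt_d9
    have h2 : Real.log 2 ≤ Real.log M := Real.log_le_log (by norm_num) hM
    linarith
  obtain ⟨w, hw⟩ : ∃ w : ℝ, w = 2500 * Real.log M := ⟨_, rfl⟩
  have hw1 : 1 ≤ w := by rw [hw]; linarith
  by_cases hS : S.card = 0
  · right
    have h1 := col_le S φ
    rw [hS] at h1
    have h2 : col S φ = 0 := by simpa using h1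
    rw [h2]
    push_cast
    positivity
  obtain ⟨E, hE⟩ : ∃ E : ℝ, E = (col S φ : ℝ) := ⟨_, rfl⟩
  obtain ⟨s, hs⟩ : ∃ s : ℝ, s = (S.card : ℝ) := ⟨_, rfl⟩
  obtain ⟨E', hE'⟩ : ∃ E' : ℝ, E' = (col R ψ : ℝ) := ⟨_, rfl⟩
  obtain ⟨r, hr⟩ : ∃ r : ℝ, r = (R.card : ℝ) := ⟨_, rfl⟩
  have hs1 : 1 ≤ s := by rw [hs]; exact_mod_cast Nat.one_le_iff_ne_zero.mpr hS
  have hsE : s ≤ E := by rw [hs, hE]; exact_mod_cast le_col S φ
  have hEs : E ≤ s ^ 2 := by rw [hs, hE]; exact_mod_cast col_le S φ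
  have hEr : E' ≤ r ^ 2 := by rw [hE', hr]; exact_mod_cast col_le R ψ
  have hE'0 : 0 ≤ E' := by rw [hE']; exact Nat.cast_nonneg _
  have hE0 : 0 < E := by linarith
  obtain ⟨q, hq⟩ : ∃ q : ℝ, q = Real.sqrt E := ⟨_, rfl⟩
  have hq0 : 0 < q := by rw [hq]; exact Real.sqrt_pos.mpr hE0
  have hq2 : q ^ 2 = E := by rw [hq]; exact Real.sq_sqrt hE0.le
  have hqs : q ≤ s := by
    rw [hq]; exact Real.sqrt_le_iff.mpr ⟨by linarith, hEs⟩
  have ht : 1 ≤ s / q := by rw [le_div_iff₀ hq0]; linarith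
  have hp := pairs_le M (s / q) hM ht A hA hAM S R φ ψ hφ hψ
  rw [← hE, ← hs, ← hE', ← hr, ← hw] at hp
  have hJ' : E ≤ (((S ×ˢ R).filter (fun z : X × Y => φ z.1 - ψ z.2 ∈ A)).card : ℝ) := by
    rw [hE]; exact_mod_cast hJ
  have h1 : E ^ 2 ≤ 2 * w ^ 2 * ((s / q * E + s ^ 2 / (s / q)) * (s / q * E' + r ^ 2 / (s / q)))
      + 2 * (E * E') := (pow_le_pow_left₀ hE0.le hJ' 2).trans hp
  have h2 : (s / q * E + s ^ 2 / (s / q)) * (s / q * E' + r ^ 2 / (s / q))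
      = 2 * s ^ 2 * E' + 2 * r ^ 2 * E := by
    rw [← hq2]
    have hs0 : s ≠ 0 := by positivity
    field_simp
    ring
  rw [h2] at h1
  have hw2 : 1 ≤ w ^ 2 := one_le_pow₀ hw1
  have h3 : E ^ 2 ≤ 4 * w ^ 2 * (s ^ 2 * E') + 6 * w ^ 2 * r ^ 2 * E := by
    have h4 : E * E' ≤ w ^ 2 * r ^ 2 * E := by
      have h5 : E' ≤ w ^ 2 * r ^ 2 := by nlinarith [sq_nonneg r]
      nlinarith
    nlinarith
  rw [← hE, ← hs, ← hE', ← hr, ← hw]
  by_cases h : E ^ 2 ≤ 8 * w ^ 2 * (s ^ 2 * E')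
  · exact Or.inl h
  · right
    push Not at h
    have h6 : E * E ≤ 12 * w ^ 2 * r ^ 2 * E := by nlinarith
    exact le_of_mul_le_mul_right h6 hE0

end recur

end H45SQ
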