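import Pool.Agent.H45.SQ.Sv

set_option autoImplicit false

namespace H45SQ

open Finset H91SQ

lemma third_card (A : Finset ℤ) :
    (((A ×ˢ A) ×ˢ (A ×ˢ A) ×ˢ (A ×ˢ A)).filter
      (fun p : (ℤ × ℤ) × (ℤ × ℤ) × (ℤ × ℤ) =>
        p.1.1 - p.1.2 = p.2.1.1 - p.2.1.2 ∧ p.2.1.1 - p.2.1.2 = p.2.2.1 - p.2.2.2)).card ≤
      ∑ s ∈ dif A, rep A s ^ 3 := by
  rw [Finset.card_eq_sum_card_fiberwise (t := dif A)
    (f := fun p : (ℤ × ℤ) × (ℤ × ℤ) × (ℤ × ℤ) => p.1.1 - p.1.2)]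
  · refine Finset.sum_le_sum fun s _ => ?_
    have e : rep A s ^ 3 =
      (((A ×ˢ A).filter (fun p : ℤ × ℤ => p.1 - p.2 = s)) ×ˢ
        ((A ×ˢ A).filter (fun p : ℤ × ℤ => p.1 - p.2 = s)) ×ˢ
        ((A ×ˢ A).filter (fun p : ℤ × ℤ => p.1 - p.2 = s))).card := by
      rw [Finset.card_product, Finset.card_product]
      unfold rep
      ring
    rw [e]
    refine Finset.card_le_card fun p hp => ?_
    obtain ⟨h1, h2⟩ := Finset.mem_filter.mp hp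
    obtain ⟨h3, h4, h5⟩ := Finset.mem_filter.mp h1
    obtain ⟨h6, h7⟩ := Finset.mem_product.mp h3
    obtain ⟨h8, h9⟩ := Finset.mem_product.mp h7
    have h2' : p.1.1 - p.1.2 = s := h2
    refine Finset.mem_product.mpr ⟨Finset.mem_filter.mpr ⟨h6, h2'⟩, Finset.mem_product.mpr
      ⟨Finset.mem_filter.mpr ⟨h8, ?_⟩, Finset.mem_filter.mpr ⟨h9, ?_⟩⟩⟩
    · rw [← h4]; exact h2'
    · rw [← h5, ← h4]; exact h2'
  · intro p hp
    obtain ⟨h3, _⟩ := Finset.mem_filter.mp (Finset.mem_coe.mp hp)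
    exact Finset.mem_coe.mpr (Finset.mem_image.mpr ⟨p.1, (Finset.mem_product.mp h3).1, rfl⟩)

lemma third_image (A : Finset ℤ) (c : ℚ) (hc : c ≠ 0) (B : Finset ℚ)
    (hB : A.image (fun z : ℤ => (z : ℚ) * c) = B) :
    (((B ×ˢ B) ×ˢ (B ×ˢ B) ×ˢ (B ×ˢ B)).filter
      (fun p : (ℚ × ℚ) × (ℚ × ℚ) × (ℚ × ℚ) =>
        p.1.1 - p.1.2 = p.2.1.1 - p.2.1.2 ∧ p.2.1.1 - p.2.1.2 = p.2.2.1 - p.2.2.2)).card ≤
      ∑ s ∈ dif A, rep A s ^ 3 := by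
  refine le_trans ?_ (third_card A)
  have hsub : (((B ×ˢ B) ×ˢ (B ×ˢ B) ×ˢ (B ×ˢ B)).filter
      (fun p : (ℚ × ℚ) × (ℚ × ℚ) × (ℚ × ℚ) =>
        p.1.1 - p.1.2 = p.2.1.1 - p.2.1.2 ∧ p.2.1.1 - p.2.1.2 = p.2.2.1 - p.2.2.2)) ⊆
      (((A ×ˢ A) ×ˢ (A ×ˢ A) ×ˢ (A ×ˢ A)).filter
      (fun p : (ℤ × ℤ) × (ℤ × ℤ) × (ℤ × ℤ) =>
        p.1.1 - p.1.2 = p.2.1.1 - p.2.1.2 ∧ p.2.1.1 - p.2.1.2 = p.2.2.1 - p.2.2.2)).image
      (fun p => (((p.1.1 : ℚ) * c, (p.1.2 : ℚ) * c), (((p.2.1.1 : ℚ) * c, (p.2.1.2 : ℚ) * c),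
        ((p.2.2.1 : ℚ) * c, (p.2.2.2 : ℚ) * c)))) := by
    intro p hp
    rw [Finset.mem_filter] at hp
    obtain ⟨h1, h2, h3⟩ := hp
    simp only [Finset.mem_product, ← hB, Finset.mem_image] at h1
    obtain ⟨⟨⟨a1, ha1, e1⟩, ⟨a2, ha2, e2⟩⟩, ⟨⟨a3, ha3, e3⟩, ⟨a4, ha4, e4⟩⟩,
      ⟨⟨a5, ha5, e5⟩, ⟨a6, ha6, e6⟩⟩⟩ := h1
    refine Finset.mem_image.mpr ⟨((a1, a2), ((a3, a4), (a5, a6))), ?_, ?_⟩
    · refine Finset.mem_filter.mpr ⟨?_, ?_, ?_⟩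
      · simp only [Finset.mem_product]
        exact ⟨⟨ha1, ha2⟩, ⟨ha3, ha4⟩, ⟨ha5, ha6⟩⟩
      · rw [← e1, ← e2, ← e3, ← e4, ← sub_mul, ← sub_mul] at h2
        have := mul_right_cancel₀ hc h2
        show a1 - a2 = a3 - a4
        exact_mod_cast this
      · rw [← e3, ← e4, ← e5, ← e6, ← sub_mul, ← sub_mul] at h3
        have := mul_right_cancel₀ hc h3
        show a3 - a4 = a5 - a6
        exact_mod_cast this
    · simp only [e1, e2, e3, e4, e5, e6]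
  exact (Finset.card_le_card hsub).trans Finset.card_image_le

lemma dif_image (A : Finset ℤ) (c : ℚ) (hc : c ≠ 0) (B : Finset ℚ)
    (hB : A.image (fun z : ℤ => (z : ℚ) * c) = B) :
    (dif A).card ≤ ((B ×ˢ B).image (fun p : ℚ × ℚ => p.1 - p.2)).card := by
  refine Finset.card_le_card_of_injOn (fun s : ℤ => (s : ℚ) * c) ?_ ?_
  · intro s hs
    obtain ⟨p, hp, h⟩ := Finset.mem_image.mp (Finset.mem_coe.mp hs)
    have h1 := Finset.mem_product.mp hp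
    refine Finset.mem_coe.mpr (Finset.mem_image.mpr ⟨((p.1 : ℚ) * c, (p.2 : ℚ) * c), ?_, ?_⟩)
    · rw [← hB]
      exact Finset.mem_product.mpr ⟨Finset.mem_image.mpr ⟨p.1, h1.1, rfl⟩,
        Finset.mem_image.mpr ⟨p.2, h1.2, rfl⟩⟩
    · have h' : p.1 - p.2 = s := h
      show (p.1 : ℚ) * c - (p.2 : ℚ) * c = (s : ℚ) * c
      rw [← h']
      push_cast
      ring
  · intro s _ t _ h
    have := mul_right_cancel₀ hc h
    exact_mod_cast this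

/-- Third moment, with logarithms. -/
theorem third_log (H : ℕ) (hH : 2 ≤ H) (A : Finset ℤ)
    (hA : ∀ a ∈ A, ∃ x : ℤ, |x| ≤ (H : ℤ) ∧ a = x ^ 2) :
    ∑ s ∈ dif A, (rep A s : ℝ) ^ 3 ≤ (40000 * Real.log H) ^ 3 * (A.card : ℝ) ^ 3 := by
  have hHr : (2 : ℝ) ≤ H := by exact_mod_cast hH
  have h1 := third H hH A hA
  have h2 := LL_le H hH A hA
  have h3 := vv_le H hH
  have hv0 : 0 ≤ vv H := by have := vv_one H hH; linarith
  have h4 : Real.log (2 * H) ≤ 2 * Real.log H := by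
    have : Real.log (2 * H) ≤ Real.log ((H : ℝ) ^ 2) :=
      Real.log_le_log (by linarith) (by nlinarith)
    rw [Real.log_pow] at this
    push_cast at this
    exact this
  have h5 : 0 ≤ Real.log (2 * H) := Real.log_nonneg (by linarith)
  have h6 : 0 ≤ Real.log H := Real.log_nonneg (by linarith)
  have hL0 : (0 : ℝ) ≤ (LL A : ℝ) := Nat.cast_nonneg _
  have hn0 : (0 : ℝ) ≤ (A.card : ℝ) := Nat.cast_nonneg _
  calc ∑ s ∈ dif A, (rep A s : ℝ) ^ 3 ≤ 8 * (LL A : ℝ) * vv H * (A.card : ℝ) ^ 3 := h1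
    _ ≤ 8 * (3 * (2 * Real.log H)) * (250000000 * (2 * Real.log H) ^ 2) * (A.card : ℝ) ^ 3 := by
        apply mul_le_mul_of_nonneg_right _ (by positivity)
        apply mul_le_mul
        · linarith
        · refine h3.trans ?_
          apply mul_le_mul_of_nonneg_left _ (by norm_num)
          exact pow_le_pow_left₀ h5 h4 2
        · exact hv0
        · positivity
    _ = 48000000000 * (Real.log H ^ 3 * (A.card : ℝ) ^ 3) := by ring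
    _ ≤ 40000 ^ 3 * (Real.log H ^ 3 * (A.card : ℝ) ^ 3) := by
        apply mul_le_mul_of_nonneg_right _ (by positivity)
        norm_num
    _ = (40000 * Real.log H) ^ 3 * (A.card : ℝ) ^ 3 := by ring

/-- Difference set, with logarithms. -/
theorem dif_log (H : ℕ) (hH : 2 ≤ H) (A : Finset ℤ)
    (hA : ∀ a ∈ A, ∃ x : ℤ, |x| ≤ (H : ℤ) ∧ a = x ^ 2) :
    (A.card : ℝ) ^ ((8 : ℝ) / 5) ≤ (40000 * Real.log H) ^ 2 * ((dif A).card : ℝ) := by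
  have hHr : (2 : ℝ) ≤ H := by exact_mod_cast hH
  have h1 := dif_bound H hH A hA
  have h2 := LL_le H hH A hA
  have h3 := vv_le H hH
  have hv0 : 0 ≤ vv H := by have := vv_one H hH; linarith
  have h4 : Real.log (2 * H) ≤ 2 * Real.log H := by
    have : Real.log (2 * H) ≤ Real.log ((H : ℝ) ^ 2) :=
      Real.log_le_log (by linarith) (by nlinarith)
    rw [Real.log_pow] at this
    push_cast at this
    exact this
  have h5 : 0 ≤ Real.log (2 * H) := Real.log_nonneg (by linarith)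
  have h6 : 0 ≤ Real.log H := Real.log_nonneg (by linarith)
  have hL0 : (0 : ℝ) ≤ (LL A : ℝ) := Nat.cast_nonneg _
  obtain ⟨n, hn⟩ : ∃ n : ℝ, n = (A.card : ℝ) := ⟨_, rfl⟩
  obtain ⟨X, hX⟩ : ∃ X : ℝ, X = ((dif A).card : ℝ) := ⟨_, rfl⟩
  obtain ⟨l, hl⟩ : ∃ l : ℝ, l = Real.log H := ⟨_, rfl⟩
  have hn0 : 0 ≤ n := by rw [hn]; exact Nat.cast_nonneg _
  have hX0 : 0 ≤ X := by rw [hX]; exact Nat.cast_nonneg _
  rw [← hn, ← hX] at h1
  rw [← hl] at h4 h6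
  rw [← hn, ← hX, ← hl]
  refine le_of_pow_le_pow_left₀ (n := 5) (by norm_num) (by positivity) ?_
  have b1 : (n ^ ((8 : ℝ) / 5)) ^ 5 = n ^ 8 := by
    rw [← Real.rpow_natCast (n ^ ((8 : ℝ) / 5)) 5, ← Real.rpow_mul hn0, ← Real.rpow_natCast n 8]
    norm_num
  rw [b1]
  have c1 : (LL A : ℝ) ≤ 6 * l := by linarith
  have c2 : vv H ≤ 1000000000 * l ^ 2 := by
    refine h3.trans ?_
    have : Real.log (2 * H) ^ 2 ≤ (2 * l) ^ 2 := pow_le_pow_left₀ h5 h4 2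
    nlinarith
  calc n ^ 8 ≤ 128 * (LL A : ℝ) ^ 2 * vv H ^ 4 * X ^ 5 := h1
    _ ≤ 128 * (6 * l) ^ 2 * (1000000000 * l ^ 2) ^ 4 * X ^ 5 := by gcongr
    _ = (128 * 6 ^ 2 * 1000000000 ^ 4) * (l ^ 10 * X ^ 5) := by ring
    _ ≤ 40000 ^ 10 * (l ^ 10 * X ^ 5) := by
        apply mul_le_mul_of_nonneg_right _ (by positivity)
        norm_num
    _ = ((40000 * l) ^ 2 * X) ^ 5 := by ring

end H45SQ
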