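import Pool.Agent.H45.SQ.Rec

set_option autoImplicit false

namespace H45SQ

open Finset

section tuples

variable {G : Type*} [AddCommGroup G] [DecidableEq G]

/-- `k`-tuples of elements of `A`. -/
def tup (k : ℕ) (A : Finset G) : Finset (Fin k → G) := Fintype.piFinset (fun _ : Fin k => A)

/-- The number of pairs of `k`-tuples of `A` with equal sum. -/
def ten (k : ℕ) (A : Finset G) : ℕ := col (tup k A) (fun x : Fin k → G => ∑ i, x i)

lemma card_tup (k : ℕ) (A : Finset G) : (tup k A).card = A.card ^ k := by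
  unfold tup
  rw [Fintype.card_piFinset_const]

lemma mem_tup (k : ℕ) (A : Finset G) (x : Fin k → G) : x ∈ tup k A ↔ ∀ i, x i ∈ A := by
  unfold tup
  exact Fintype.mem_piFinset

lemma ten_succ (k : ℕ) (A : Finset G) :
    ten (k + 1) A ≤ ((tup (k + 1) A ×ˢ tup k A).filter
      (fun z : (Fin (k + 1) → G) × (Fin k → G) => (∑ i, z.1 i) - (∑ i, z.2 i) ∈ A)).card := by
  unfold ten col
  refine Finset.card_le_card_of_injOn (fun z => (z.1, Fin.tail z.2)) ?_ ?_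
  · intro z hz
    have hz' := Finset.mem_coe.mp hz
    rw [Finset.mem_filter, Finset.mem_product, mem_tup, mem_tup] at hz'
    obtain ⟨⟨h1, h2⟩, h3⟩ := hz'
    have h3' : ∑ i, z.1 i = ∑ i, z.2 i := h3
    refine Finset.mem_coe.mpr (Finset.mem_filter.mpr ⟨Finset.mem_product.mpr
      ⟨(mem_tup _ _ _).mpr h1, (mem_tup _ _ _).mpr (fun i => h2 i.succ)⟩, ?_⟩)
    have e : (∑ i, z.1 i) - (∑ i, Fin.tail z.2 i) = z.2 0 := by
      rw [h3', Fin.sum_univ_succ]
      simp only [Fin.tail]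
      abel
    simp only
    rw [e]
    exact h2 0
  · intro z hz w hw h
    have hz' := Finset.mem_coe.mp hz
    have hw' := Finset.mem_coe.mp hw
    rw [Finset.mem_filter] at hz' hw'
    have h3 : ∑ i, z.1 i = ∑ i, z.2 i := hz'.2
    have h4 : ∑ i, w.1 i = ∑ i, w.2 i := hw'.2
    simp only [Prod.mk.injEq] at h
    obtain ⟨h1, h2⟩ := h
    have e5 : z.2 0 = w.2 0 := by
      have e6 : ∑ i, z.2 i = z.2 0 + ∑ i, Fin.tail z.2 i := by
        rw [Fin.sum_univ_succ]; rfl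
      have e7 : ∑ i, w.2 i = w.2 0 + ∑ i, Fin.tail w.2 i := by
        rw [Fin.sum_univ_succ]; rfl
      rw [e6] at h3
      rw [e7, ← h1, ← h2] at h4
      rw [h3] at h4
      exact add_right_cancel h4
    refine Prod.ext h1 ?_
    funext i
    refine Fin.cases e5 (fun j => ?_) i
    exact congrFun h2 j

lemma ten_le (k : ℕ) (A : Finset G) : ten (k + 1) A ≤ A.card ^ (2 * k + 1) := by
  refine (ten_succ k A).trans ((Finset.card_filter_le _ _).trans (le_of_eq ?_))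
  rw [Finset.card_product, card_tup, card_tup, ← pow_add]
  congr 1
  ring

end tuples

section ints

lemma sum_tup_mem (k : ℕ) (A : Finset ℤ) (L : ℤ) (hA : ∀ a ∈ A, 0 ≤ a ∧ a ≤ L)
    (x : Fin k → ℤ) (hx : x ∈ tup k A) : 0 ≤ ∑ i, x i ∧ ∑ i, x i ≤ (k : ℤ) * L := by
  rw [mem_tup] at hx
  constructor
  · exact Finset.sum_nonneg (fun i _ => (hA _ (hx i)).1)
  · calc ∑ i, x i ≤ ∑ _i : Fin k, L := Finset.sum_le_sum (fun i _ => (hA _ (hx i)).2)
      _ = (k : ℤ) * L := by simp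

lemma abs_tup_le (k : ℕ) (A : Finset ℤ) (L : ℤ) (hA : ∀ a ∈ A, 0 ≤ a ∧ a ≤ L)
    (M : ℝ) (hM : (k : ℝ) * (L : ℝ) ≤ M) (x : Fin k → ℤ) (hx : x ∈ tup k A)
    (y : Fin k → ℤ) (hy : y ∈ tup k A) : ((|(∑ i, x i) - (∑ i, y i)| : ℤ) : ℝ) ≤ M := by
  obtain ⟨h1, h2⟩ := sum_tup_mem k A L hA x hx
  obtain ⟨h3, h4⟩ := sum_tup_mem k A L hA y hy
  have h5 : |(∑ i, x i) - (∑ i, y i)| ≤ (k : ℤ) * L := by
    rw [abs_le]; constructor <;> linarith
  have h6 : ((|(∑ i, x i) - (∑ i, y i)| : ℤ) : ℝ) ≤ (((k : ℤ) * L : ℤ) : ℝ) := by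
    exact_mod_cast h5
  push_cast at h6 ⊢
  linarith

/-- The recursion for `k + 2` summands. -/
lemma ten_rec (H : ℕ) (hH : 2 ≤ H) (A : Finset ℤ)
    (hA : ∀ a ∈ A, ∃ x : ℤ, |x| ≤ (H : ℤ) ∧ a = x ^ 2) (k : ℕ) :
    ((ten (k + 2) A : ℝ)) ^ 2 ≤ 8 * (5000 * Real.log ((k + 2 : ℝ) * H)) ^ 2 *
        (((A.card : ℝ) ^ (k + 2)) ^ 2 * (ten (k + 1) A : ℝ)) ∨
      (ten (k + 2) A : ℝ) ≤ 12 * (5000 * Real.log ((k + 2 : ℝ) * H)) ^ 2 *
        ((A.card : ℝ) ^ (k + 1)) ^ 2 := by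
  have hHr : (2 : ℝ) ≤ H := by exact_mod_cast hH
  have hk0 : (0 : ℝ) ≤ k := Nat.cast_nonneg _
  have hA1 : ∀ a ∈ A, IsSquare a := by
    intro a ha
    obtain ⟨x, _, rfl⟩ := hA a ha
    exact ⟨x, by ring⟩
  have hA2 : ∀ a ∈ A, 0 ≤ a ∧ a ≤ (H : ℤ) ^ 2 := by
    intro a ha
    obtain ⟨x, hx, rfl⟩ := hA a ha
    refine ⟨sq_nonneg _, ?_⟩
    rw [← sq_abs]
    exact pow_le_pow_left₀ (abs_nonneg _) hx 2
  obtain ⟨M, hMd⟩ : ∃ M : ℝ, M = (k + 2 : ℝ) * (H : ℝ) ^ 2 := ⟨_, rfl⟩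
  have hM : 2 ≤ M := by rw [hMd]; nlinarith
  have hM1 : (H : ℝ) ^ 2 ≤ M := by rw [hMd]; nlinarith [sq_nonneg (H : ℝ)]
  have hrec := recur M hM A hA1
    (by
      intro a ha
      obtain ⟨h1, h2⟩ := hA2 a ha
      rw [abs_of_nonneg h1]
      have : (a : ℝ) ≤ (((H : ℤ) ^ 2 : ℤ) : ℝ) := by exact_mod_cast h2
      push_cast at this
      linarith)
    (tup (k + 2) A) (tup (k + 1) A) (fun x => ∑ i, x i) (fun x => ∑ i, x i)
    (fun x hx y hy => abs_tup_le (k + 2) A ((H : ℤ) ^ 2) hA2 M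
      (by rw [hMd]; push_cast; exact le_refl _) x hx y hy)
    (fun x hx y hy => abs_tup_le (k + 1) A ((H : ℤ) ^ 2) hA2 M
      (by rw [hMd]; push_cast; nlinarith [sq_nonneg (H : ℝ)]) x hx y hy)
    (ten_succ (k + 1) A)
  rw [card_tup, card_tup] at hrec
  push_cast at hrec
  have hlM : Real.log M ≤ 2 * Real.log ((k + 2 : ℝ) * H) := by
    have h1 : M ≤ ((k + 2 : ℝ) * H) ^ 2 := by
      rw [hMd, mul_pow]
      apply mul_le_mul_of_nonneg_right _ (sq_nonneg _)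
      nlinarith
    have h2 : Real.log M ≤ Real.log (((k + 2 : ℝ) * H) ^ 2) :=
      Real.log_le_log (by linarith) h1
    rw [Real.log_pow] at h2
    push_cast at h2
    exact h2
  have hlM0 : 0 ≤ Real.log M := Real.log_nonneg (by linarith)
  have hw : (2500 * Real.log M) ^ 2 ≤ (5000 * Real.log ((k + 2 : ℝ) * H)) ^ 2 :=
    pow_le_pow_left₀ (by linarith) (by linarith) 2
  rcases hrec with h | h
  · left
    refine h.trans ?_
    apply mul_le_mul_of_nonneg_right _ (by positivity)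
    linarith
  · right
    refine h.trans ?_
    apply mul_le_mul_of_nonneg_right _ (by positivity)
    linarith

/-- Real number part of the induction. -/
lemma step_real (K n θ T T' : ℝ) (j : ℕ) (hK : 1 ≤ K) (hn : 1 ≤ n) (hθ : 0 ≤ θ) (hθ1 : θ ≤ 1)
    (w : ℝ) (hw : 4 * w ≤ K) (hw0 : 0 ≤ w) (hT'0 : 0 ≤ T')
    (htriv : T ≤ n ^ (2 * j + 3))
    (hT' : T' ≤ K ^ (2 - 2 * θ) * n ^ (2 * (j : ℝ) + θ))
    (h : T ^ 2 ≤ 8 * w ^ 2 * ((n ^ (j + 2)) ^ 2 * T') ∨ T ≤ 12 * w ^ 2 * (n ^ (j + 1)) ^ 2) :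
    T ≤ K ^ (2 - θ) * n ^ (2 * (j : ℝ) + 2 + θ / 2) := by
  have hK0 : 0 < K := by linarith
  have hn0 : 0 < n := by linarith
  have hR0 : 0 ≤ K ^ (2 - θ) * n ^ (2 * (j : ℝ) + 2 + θ / 2) := by positivity
  by_cases hcase : n ≤ K ^ 2
  · -- trivial bound
    have e1 : n ^ (2 * j + 3) = n ^ (2 * (j : ℝ) + 2 + θ / 2) * n ^ (1 - θ / 2) := by
      rw [← Real.rpow_add hn0, ← Real.rpow_natCast]
      congr 1
      push_cast
      ring
    have e2 : n ^ (1 - θ / 2) ≤ K ^ (2 - θ) := by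
      calc n ^ (1 - θ / 2) ≤ (K ^ 2) ^ (1 - θ / 2) :=
            Real.rpow_le_rpow hn0.le hcase (by linarith)
        _ = K ^ (2 - θ) := by
            rw [← Real.rpow_natCast, ← Real.rpow_mul hK0.le]
            congr 1
            push_cast
            ring
    calc T ≤ n ^ (2 * j + 3) := htriv
      _ = n ^ (2 * (j : ℝ) + 2 + θ / 2) * n ^ (1 - θ / 2) := e1
      _ ≤ n ^ (2 * (j : ℝ) + 2 + θ / 2) * K ^ (2 - θ) :=
          mul_le_mul_of_nonneg_left e2 (by positivity)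
      _ = _ := mul_comm _ _
  push Not at hcase
  have hw2 : 16 * w ^ 2 ≤ K ^ 2 := by nlinarith
  rcases h with h | h
  · apply le_of_sq_le_sq _ hR0
    calc T ^ 2 ≤ 8 * w ^ 2 * ((n ^ (j + 2)) ^ 2 * T') := h
      _ ≤ K ^ 2 * ((n ^ (j + 2)) ^ 2 * (K ^ (2 - 2 * θ) * n ^ (2 * (j : ℝ) + θ))) := by
          apply mul_le_mul
          · nlinarith [sq_nonneg w]
          · exact mul_le_mul_of_nonneg_left hT' (by positivity)
          · positivity
          · positivity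
      _ = (K ^ (2 - θ) * n ^ (2 * (j : ℝ) + 2 + θ / 2)) ^ 2 := by
          have a1 : K ^ 2 * K ^ (2 - 2 * θ) = (K ^ (2 - θ)) ^ 2 := by
            rw [← Real.rpow_natCast, ← Real.rpow_natCast, ← Real.rpow_mul hK0.le,
              ← Real.rpow_add hK0]
            congr 1
            push_cast
            ring
          have a2 : (n ^ (j + 2)) ^ 2 * n ^ (2 * (j : ℝ) + θ)
              = (n ^ (2 * (j : ℝ) + 2 + θ / 2)) ^ 2 := by
            rw [← pow_mul, ← Real.rpow_natCast, ← Real.rpow_natCast, ← Real.rpow_mul hn0.le,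
              ← Real.rpow_add hn0]
            congr 1
            push_cast
            ring
          rw [mul_pow, ← a1, ← a2]
          ring
  · have e1 : K ^ θ ≤ n ^ (θ / 2) := by
      calc K ^ θ = (K ^ 2) ^ (θ / 2) := by
            rw [← Real.rpow_natCast, ← Real.rpow_mul hK0.le]
            congr 1
            push_cast
            ring
        _ ≤ n ^ (θ / 2) := Real.rpow_le_rpow (by positivity) hcase.le (by linarith)
    calc T ≤ 12 * w ^ 2 * (n ^ (j + 1)) ^ 2 := h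
      _ ≤ K ^ 2 * (n ^ (j + 1)) ^ 2 := by
          apply mul_le_mul_of_nonneg_right _ (by positivity)
          nlinarith [sq_nonneg w]
      _ = K ^ (2 - θ) * (n ^ (j + 1)) ^ 2 * K ^ θ := by
          have a1 : K ^ 2 = K ^ (2 - θ) * K ^ θ := by
            rw [← Real.rpow_add hK0, ← Real.rpow_natCast]
            congr 1
            push_cast
            ring
          rw [a1]; ring
      _ ≤ K ^ (2 - θ) * (n ^ (j + 1)) ^ 2 * n ^ (θ / 2) :=
          mul_le_mul_of_nonneg_left e1 (by positivity)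
      _ = _ := by
          have a2 : (n ^ (j + 1)) ^ 2 * n ^ (θ / 2) = n ^ (2 * (j : ℝ) + 2 + θ / 2) := by
            rw [← pow_mul, ← Real.rpow_natCast, ← Real.rpow_add hn0]
            congr 1
            push_cast
            ring
          rw [mul_assoc, a2]

end ints

end H45SQ
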